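import Pool.Agent.LibDS14.Defs

/-! Paths in a net (copy of LibCR14.N0 for NetD). -/

set_option autoImplicit false

namespace Pool.Agent.LibDS14

open Pool.Agent.LibSMP

variable {M : Type*} [Monoid M] {n : ℕ} {Q E : Type*} {N : NetD M n Q E}

theorem pt_append {l l' : List E} {q q'' : Q} : Pt N q (l ++ l') q'' ↔ ∃ q', Pt N q l q' ∧ Pt N q' l' q'' := by
  induction l generalizing q with
  | nil => simp [Pt]
  | cons a l ih => simp [Pt, ih, and_assoc]

theorem pt_unique {l : List E} {q q' q'' : Q} (h : Pt N q l q') (h' : Pt N q l q'') : q' = q'' := by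
  induction l generalizing q with
  | nil =>
    have h1 : q = q' := h
    have h2 : q = q'' := h'
    exact h1.symm.trans h2
  | cons a l ih => exact ih h.2 h'.2

theorem pt_split {w : List E} {q q' : Q} (h : Pt N q w q') {a : E} (ha : a ∈ w) :
    ∃ w₁ w₂, w = w₁ ++ a :: w₂ ∧ Pt N q w₁ (N.src a) ∧ Pt N (N.tgt a) w₂ q' := by
  obtain ⟨w₁, w₂, rfl⟩ := List.append_of_mem ha
  obtain ⟨q₁, h1, h2, h3⟩ := pt_append.1 h
  subst h2
  exact ⟨w₁, w₂, rfl, h1, h3⟩

theorem pv_left {l : List E} {q q' : Q} (h : Pt N q l q') (i : Fin n) : N.ep q i * pv N q l i = pv N q l i := by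
  cases l with
  | nil => exact N.id q i
  | cons a l =>
    have h1 : N.src a = q := h.1
    subst h1
    change N.ep (N.src a) i * (N.vl a i * pv N (N.tgt a) l i) = N.vl a i * pv N (N.tgt a) l i
    rw [← mul_assoc, N.hl]

theorem pv_right {l : List E} {q q' : Q} (h : Pt N q l q') (i : Fin n) : pv N q l i * N.ep q' i = pv N q l i := by
  induction l generalizing q with
  | nil =>
    have h1 : q = q' := h
    subst h1
    exact N.id q i
  | cons a l ih =>
    change N.vl a i * pv N (N.tgt a) l i * N.ep q' i = N.vl a i * pv N (N.tgt a) l i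
    rw [mul_assoc, ih h.2]

theorem pv_append {l l' : List E} {q q' q'' : Q} (h : Pt N q l q') (h' : Pt N q' l' q'') (i : Fin n) :
    pv N q (l ++ l') i = pv N q l i * pv N q' l' i := by
  induction l generalizing q with
  | nil =>
    have h1 : q = q' := h
    subst h1
    exact (pv_left h' i).symm
  | cons a l ih =>
    change N.vl a i * pv N (N.tgt a) (l ++ l') i = N.vl a i * pv N (N.tgt a) l i * pv N q' l' i
    rw [ih h.2, mul_assoc]

theorem pv_nil (q : Q) (i : Fin n) : pv N q [] i = N.ep q i := rfl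

theorem pv_cons (q : Q) (a : E) (l : List E) (i : Fin n) :
    pv N q (a :: l) i = N.vl a i * pv N (N.tgt a) l i := rfl

/-- a path followed by an edge -/
theorem pv_snoc {l : List E} {q : Q} {a : E} (h : Pt N q l (N.src a)) (i : Fin n) :
    pv N q (l ++ [a]) i = pv N q l i * N.vl a i := by
  have h1 : Pt N (N.src a) [a] (N.tgt a) := ⟨rfl, rfl⟩
  rw [pv_append h h1 i]
  change pv N q l i * (N.vl a i * N.ep (N.tgt a) i) = pv N q l i * N.vl a i
  rw [N.hr]

theorem pt_snoc {l : List E} {q : Q} {a : E} (h : Pt N q l (N.src a)) : Pt N q (l ++ [a]) (N.tgt a) :=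
  pt_append.2 ⟨N.src a, h, rfl, rfl⟩

theorem pv_three {u x w : List E} {q v v' q' : Q} (hu : Pt N q u v) (hx : Pt N v x v') (hw : Pt N v' w q') (i : Fin n) :
    pv N q (u ++ x ++ w) i = pv N q u i * pv N v x i * pv N v' w i := by
  rw [pv_append (pt_append.2 ⟨v, hu, hx⟩) hw i, pv_append hu hx i]

theorem pt_three {u x w : List E} {q v v' q' : Q} (hu : Pt N q u v) (hx : Pt N v x v') (hw : Pt N v' w q') :
    Pt N q (u ++ x ++ w) q' := pt_append.2 ⟨v', pt_append.2 ⟨v, hu, hx⟩, hw⟩

/-- a row of loops at `v` -/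
theorem pt_flatten {v : Q} {xs : List (List E)} (h : ∀ x ∈ xs, Pt N v x v) : Pt N v xs.flatten v := by
  induction xs with
  | nil => exact rfl
  | cons x xs ih =>
    rw [List.flatten_cons]
    exact pt_append.2 ⟨v, h x List.mem_cons_self, ih fun y hy => h y (List.mem_cons_of_mem _ hy)⟩

end Pool.Agent.LibDS14
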