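import Pool.Agent.LibDS14.D0


/-!
[DS14 D1] (MEDIUM, 4 lemmas) Local monoids in DS.
`dsm_of_dsat`: elements of `Cor ⟨e, he.1⟩` (LibSMP/Green.lean) are elements `x` of `M` with `e x = x = x e`. `JLe x y` in the corner gives `JLe x.1 y.1` in `M` (take values). Conversely, if `x.1 = a * y.1 * b` in `M` with `x, y` in the corner then
`x = (e a e) y (e b e)` in the corner. So `he.2` gives the claim. (Compare `dsm_cor` in LibSMP/LDS.lean.)
`ds_sq`: `f = p * u * q`. Put `g := u * q * f * p * e` (it is in the corner: `e g = g = g e`). `g g = u q f (p u q) f p e = u q f f f p e = g` (use `e * u = u`). `JLe g u` in the corner (`g = u * (e q f p e)`: `u * e = u`), so `DS_mul` (LibSMP/Green.lean) in the corner (`dsm_of_dsat`)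
gives `JLe g (u * u)` there, hence in `M`. `JLe f g`: `f = f f f = (p u q) f (p u q) = p * g * (u * q)` (`e * u = u`).
`rem_at`: `f = p (x l y) q`; `u := y q p x` has `e u = u = u e`; `f = f f = (p x l) u (l y q)` so `JLe f u`; `ds_sq`: `JLe f (u u)`, `u u = (y q p) (x y) (q p x)`. (Compare LibCR14/N1.lean.)
`ds_at`: exactly as in LibCR14/N1.lean.
-/

set_option autoImplicit false

namespace Pool.Agent.LibDS14

open Pool.Agent.LibSMP

variable {M : Type*} [Monoid M]

theorem dsm_of_dsat {e : M} (he : DSat e) : DSM (Cor (⟨e, he.1⟩ : {e : M // e * e = e})) := by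
  rintro x y ⟨z, hz⟩ ⟨a, b, hab⟩ ⟨c, d, hcd⟩
  have x1 : e * x.1 = x.1 := x.2.1
  have x2 : x.1 * e = x.1 := x.2.2
  have y1 : e * y.1 = y.1 := y.2.1
  have y2 : y.1 * e = y.1 := y.2.2
  have e1 : e * e = e := he.1
  have h1 : x.1 * z.1 * x.1 = x.1 := congrArg Subtype.val hz
  have h2 : x.1 = a.1 * y.1 * b.1 := congrArg Subtype.val hab
  have h3 : y.1 = c.1 * x.1 * d.1 := congrArg Subtype.val hcd
  obtain ⟨p, q, hpq⟩ := he.2 x.1 y.1 x1 x2 y1 y2 ⟨z.1, h1⟩ ⟨a.1, b.1, h2⟩ ⟨c.1, d.1, h3⟩
  have e2 : ∀ t : M, e * (e * t) = e * t := fun t => by rw [← mul_assoc, e1]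
  refine ⟨⟨e * p * e, ?_, ?_⟩, ⟨e * q * e, ?_, ?_⟩, ?_⟩
  · change e * (e * p * e) = e * p * e
    simp only [mul_assoc, e2]
  · change e * p * e * e = e * p * e
    simp only [mul_assoc, e1]
  · change e * (e * q * e) = e * q * e
    simp only [mul_assoc, e2]
  · change e * q * e * e = e * q * e
    simp only [mul_assoc, e1]
  · apply Subtype.ext
    change x.1 = (e * p * e) * (x.1 * y.1) * (e * q * e)
    have ex : ∀ t : M, e * (x.1 * t) = x.1 * t := fun t => by rw [← mul_assoc, x1]
    have ye : ∀ t : M, y.1 * (e * t) = y.1 * t := fun t => by rw [← mul_assoc, y2]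
    calc x.1 = e * x.1 * e := by rw [x1, x2]
      _ = e * (p * (x.1 * y.1) * q) * e := by rw [← hpq]
      _ = _ := by simp only [mul_assoc, ex, ye]

theorem ds_sq {e f u : M} (he : DSat e) (hf : f * f = f) (h1 : e * u = u) (h2 : u * e = u) (h : JLe f u) :
    JLe f (u * u) := by
  obtain ⟨p, q, hpq⟩ := h
  have e1 : e * e = e := he.1
  have eu : ∀ t : M, e * (u * t) = u * t := fun t => by rw [← mul_assoc, h1]
  have ue : ∀ t : M, u * (e * t) = u * t := fun t => by rw [← mul_assoc, h2]
  have ff : ∀ t : M, f * (f * t) = f * t := fun t => by rw [← mul_assoc, hf]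
  have puq : ∀ t : M, p * (u * (q * t)) = f * t := fun t => by
    conv_rhs => rw [hpq]
    simp only [mul_assoc]
  -- the corner elements
  let U : Cor (⟨e, he.1⟩ : {e : M // e * e = e}) := ⟨u, h1, h2⟩
  have hg1 : e * (u * q * f * p * e) = u * q * f * p * e := by
    simp only [mul_assoc, eu]
  have hg2 : (u * q * f * p * e) * e = u * q * f * p * e := by
    simp only [mul_assoc, e1]
  let G : Cor (⟨e, he.1⟩ : {e : M // e * e = e}) := ⟨u * q * f * p * e, hg1, hg2⟩
  have hk1 : e * (e * q * f * p * e) = e * q * f * p * e := by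
    simp only [mul_assoc]
    rw [← mul_assoc e e, e1]
  have hk2 : (e * q * f * p * e) * e = e * q * f * p * e := by
    simp only [mul_assoc, e1]
  let K : Cor (⟨e, he.1⟩ : {e : M // e * e = e}) := ⟨e * q * f * p * e, hk1, hk2⟩
  have hGG : G * G = G := by
    apply Subtype.ext
    change (u * q * f * p * e) * (u * q * f * p * e) = u * q * f * p * e
    simp only [mul_assoc, eu, puq, ff]
  have hGU : JLe G U := by
    refine ⟨1, K, ?_⟩
    rw [one_mul]
    apply Subtype.ext
    change u * q * f * p * e = u * (e * q * f * p * e)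
    simp only [mul_assoc, ue]
  obtain ⟨a, b, hab⟩ := DS_mul (dsm_of_dsat he) hGG hGU hGU
  have h4 : u * q * f * p * e = a.1 * (u * u) * b.1 := congrArg Subtype.val hab
  refine JLe.trans (y := u * q * f * p * e) ?_ ⟨a.1, b.1, h4⟩
  refine ⟨p, u * q, ?_⟩
  calc f = f * f := hf.symm
    _ = f * f * f := by rw [hf, hf]
    _ = (p * u * q) * f * (p * u * q) := by rw [← hpq]
    _ = p * (u * q * f * p * e) * (u * q) := by simp only [mul_assoc, eu]

theorem rem_at {e f x l y : M} (he : DSat e) (hf : f * f = f) (hx : x * e = x) (hy : e * y = y)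
    (h : JLe f (x * l * y)) : JLe f (x * y) := by
  obtain ⟨p, q, hpq⟩ := h
  have h1 : JLe f (y * q * p * x) := by
    refine ⟨p * x * l, l * y * q, ?_⟩
    calc f = f * f := hf.symm
      _ = (p * (x * l * y) * q) * (p * (x * l * y) * q) := by rw [← hpq]
      _ = p * x * l * (y * q * p * x) * (l * y * q) := by simp only [mul_assoc]
  have h2 : JLe ((y * q * p * x) * (y * q * p * x)) (x * y) := by
    refine ⟨y * q * p, q * p * x, ?_⟩
    simp only [mul_assoc]
  refine (ds_sq he hf ?_ ?_ h1).trans h2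
  · rw [← mul_assoc, ← mul_assoc, ← mul_assoc, hy]
  · rw [mul_assoc, hx]

theorem ds_at {e f A B : M} (he : DSat e) (hf : f * f = f) (hA : A * e = A) (hB : e * B = B)
    (h1 : JLe f A) (h2 : JLe f B) : JLe f (A * B) := by
  obtain ⟨p, q', h3⟩ := h1
  obtain ⟨r, t, h4⟩ := h2
  refine rem_at (l := q' * r) he hf hA hB ⟨p, t, ?_⟩
  calc f = f * f := hf.symm
    _ = (p * A * q') * (r * B * t) := by rw [← h3, ← h4]
    _ = p * (A * (q' * r) * B) * t := by simp only [mul_assoc]

end Pool.Agent.LibDS14
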