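import Pool.Agent.LibDS14.D5

/-!
[DS14 D10] (SHORT/MEDIUM) Copy of `nu_exists` (LibSMP/GroupStep.lean). The only use of DS there is `DS_mul hDS he h1.2 hσ` (for `X' * σ`): now `ds_at hd he hXd' hdσ h1.2 hσ`. Everything else unchanged.
-/

set_option autoImplicit false

namespace Pool.Agent.LibDS14

open Pool.Agent.LibSMP

variable {M : Type*} [Monoid M]

theorem nu_exists' [Finite M] {d : M} (hd : DSat d) {I' : Set M} {e : M} (he : e * e = e) (hI' : IsId I')
    (he' : e ∉ I') {t P X X' σ f : M} (hXd' : X' * d = X') (hdσ : d * σ = σ) (ht : InJ e t)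
    (htP : t = P * (X * σ)) (hf : f * f = f) (hft : ∃ a, t = a * f) (hft' : ∃ a, f = a * t)
    (h : th3 I' e X' X) :
    ∃ ν : (Cor (⟨f, hf⟩ : {e : M // e * e = e}) : Type _)ˣ, ∀ y : M, y * (X * σ) * f = y * (X * σ) →
      y * (X' * σ) = y * (X * σ) * ν.1.1 := by
  rcases h with rfl | ⟨h1, h2, hR, hL⟩ | ⟨h1, h2⟩
  · refine ⟨1, fun y hy => ?_⟩
    have : ((1 : (Cor (⟨f, hf⟩ : {e : M // e * e = e}) : Type _)ˣ).1.1 : M) = f := rfl
    rw [this, hy]
  · have hXσ : InJ e (X * σ) :=
      ⟨(JLe_mul_right X σ).trans h2.1, by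
        refine ht.2.trans ?_
        rw [htP]; exact JLe_mul_left _ _⟩
    have hσ : JLe e σ := JLe_of_mul_right hXσ.2
    have hX'σ : InJ e (X' * σ) :=
      ⟨(JLe_mul_right X' σ).trans h1.1, ds_at hd he hXd' hdσ h1.2 hσ⟩
    have hR' := R_kept (U := 1) (V := σ) h2 h1 (by rwa [one_mul]) (by rwa [one_mul]) hR
    have hL' := L_kept (U := 1) (V := σ) h2 h1 (by rwa [one_mul]) (by rwa [one_mul]) hL
    simp only [one_mul] at hR' hL'
    obtain ⟨⟨m, hm⟩, ⟨m', hm'⟩⟩ := hR'
    obtain ⟨⟨z1, hz1⟩, ⟨z2, hz2⟩⟩ := hL'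
    obtain ⟨a, ha⟩ := hft
    obtain ⟨a', ha'⟩ := hft'
    have h3 : JLe (X * σ) (P * (X * σ)) := by
      rw [← htP]; exact hXσ.1.trans ht.2
    obtain ⟨z, hz⟩ := stab_L h3
    have hc : X * σ = (z * a) * f := by
      conv_lhs => rw [hz, ← htP, ha]
      rw [mul_assoc]
    have hdd : f = (a' * P) * (X * σ) := by
      conv_lhs => rw [ha', htP]
      rw [mul_assoc]
    have hXf : X * σ * f = X * σ := by
      rw [hc, mul_assoc, hf]
    have hX'f : X' * σ * f = X' * σ := by
      rw [hz1, mul_assoc, hXf]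
    have hd' : f = (a' * P * z2) * (X' * σ) := by
      rw [mul_assoc, ← hz2]; exact hdd
    have e1 : f * m * f = (a' * P) * (X' * σ) := by
      calc f * m * f = (a' * P) * (X * σ * m) * f := by
            conv_lhs => rw [show f * m * f = ((a' * P) * (X * σ)) * m * f by rw [← hdd]]
            simp only [mul_assoc]
        _ = (a' * P) * (X' * σ * f) := by rw [← hm]; simp only [mul_assoc]
        _ = _ := by rw [hX'f]
    have e2 : f * m' * f = (a' * P * z2) * (X * σ) := by
      calc f * m' * f = (a' * P * z2) * (X' * σ * m') * f := by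
            conv_lhs => rw [show f * m' * f = ((a' * P * z2) * (X' * σ)) * m' * f by rw [← hd']]
            simp only [mul_assoc]
        _ = (a' * P * z2) * (X * σ * f) := by rw [← hm']; simp only [mul_assoc]
        _ = _ := by rw [hXf]
    have e3 : (f * m * f) * (f * m' * f) = f := by
      calc (f * m * f) * (f * m' * f) = ((f * m * f) * f) * m' * f := by simp only [mul_assoc]
        _ = (f * m * f) * m' * f := by
            rw [show f * m * f * f = f * m * f by rw [mul_assoc, hf]]
        _ = (a' * P) * (X' * σ * m') * f := by rw [e1]; simp only [mul_assoc]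
        _ = (a' * P) * (X * σ * f) := by rw [← hm']; simp only [mul_assoc]
        _ = f := by rw [hXf, ← hdd]
    have e4 : (f * m' * f) * (f * m * f) = f := by
      calc (f * m' * f) * (f * m * f) = ((f * m' * f) * f) * m * f := by simp only [mul_assoc]
        _ = (f * m' * f) * m * f := by
            rw [show f * m' * f * f = f * m' * f by rw [mul_assoc, hf]]
        _ = (a' * P * z2) * (X * σ * m) * f := by rw [e2]; simp only [mul_assoc]
        _ = (a' * P * z2) * (X' * σ * f) := by rw [← hm]; simp only [mul_assoc]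
        _ = f := by rw [hX'f, ← hd']
    have g1 : f * (f * m * f) = f * m * f ∧ (f * m * f) * f = f * m * f := by
      constructor
      · rw [← mul_assoc, ← mul_assoc, hf]
      · rw [mul_assoc, hf]
    have g2 : f * (f * m' * f) = f * m' * f ∧ (f * m' * f) * f = f * m' * f := by
      constructor
      · rw [← mul_assoc, ← mul_assoc, hf]
      · rw [mul_assoc, hf]
    refine ⟨⟨⟨f * m * f, g1⟩, ⟨f * m' * f, g2⟩, Subtype.ext e3, Subtype.ext e4⟩, ?_⟩
    intro y _
    change y * (X' * σ) = y * (X * σ) * (f * m * f)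
    calc y * (X' * σ) = y * (X' * σ * f) := by rw [hX'f]
      _ = y * (X * σ * m * f) := by rw [hm]
      _ = y * (X * σ * f * m * f) := by rw [hXf]
      _ = _ := by simp only [mul_assoc]
  · exfalso
    apply InJ.not_mem hI' he' ht.2
    rw [htP]
    exact hI'.left (hI'.right h2 _) _

end Pool.Agent.LibDS14
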