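import Pool.Agent.LibDS14.D5

/-!
[DS14 D11] (MEDIUM) Selection of blocks. Copy of `select` (LibSMP/GroupStep.lean) for loops at the vertex `v`: `list.prod i` becomes `pv N v list i`, `List.prod_append` becomes `pv_append` (loops at `v`; `orig bs` is a loop by `pt_flatten`), `th3_congr` becomes `th3_congr'` at `d = N.ep v i` with `W = d` or `U = d`
(`pv_left`, `pv_right`; a product with `d` disappears), the empty list has value `N.ep v i` (use `hrem`). Prove first `gval_one`, `gval_mul`, `gval_right` (one-liners, as in GroupStep.lean) as private lemmas.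
-/

set_option autoImplicit false

namespace Pool.Agent.LibDS14

open Pool.Agent.LibSMP

variable {M : Type*} [Monoid M] {n : ℕ} {Q E : Type*} {N : NetD M n Q E}

private lemma D11_gval_one {V : Set M} (e0 : Fin n → NI V) (i : Fin n) :
    gval e0 (1 : Fin n → GN V) i = (e0 i).1.1 := rfl

private lemma D11_gval_mul {V : Set M} (e0 : Fin n → NI V) (g h : Fin n → GN V) (i : Fin n) :
    gval e0 (g * h) i = gval e0 g i * gval e0 h i := rfl

private lemma D11_gval_right {V : Set M} (e0 : Fin n → NI V) (g : Fin n → GN V) (i : Fin n) :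
    gval e0 g i * (e0 i).1.1 = gval e0 g i := (g i (e0 i)).1.2.2

private lemma D11_orig_cons {V : Set M} (c : Blk E × (Fin n → GN V)) (bs : List (Blk E × (Fin n → GN V))) :
    orig (c :: bs) = c.1.1 ++ orig bs := by simp [orig]

private lemma D11_orig_pt {V : Set M} {v : Q} {bs : List (Blk E × (Fin n → GN V))}
    (h : ∀ c ∈ bs, Pt N v c.1.1 v) : Pt N v (orig bs) v := by
  refine pt_flatten ?_
  intro x hx
  obtain ⟨c, hc, rfl⟩ := List.mem_map.1 hx
  exact h c hc

theorem select' [Finite M] {V : Set M} {v : Q} (hd : ∀ i, DSat (N.ep v i)) {I' : Set M} {e : M} (he : e * e = e)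
    (hI' : IsId I') (he' : e ∉ I') (hmin : ∀ y, y ∉ I' → JLe y e → JLe e y)
    (good : Fin n → Prop) (e0 : Fin n → NI V) (rem : Fin n → M) (hrem : ∀ i, N.ep v i * rem i = rem i)
    {sub bs : List (Blk E × (Fin n → GN V))} (hsub : sub.Sublist bs) :
    Valid N v good e0 rem bs →
    (∀ c ∈ bs, Pt N v c.1.1 v ∧ Pt N v c.1.2 v ∧ (∀ a ∈ c.1.2, a ∈ c.1.1) ∧ c.1.2.length < c.1.1.length ∧
      ∀ i, th3 I' e (pv N v c.1.2 i) (pv N v c.1.1 i)) →
    ∃ W : List E, Pt N v W v ∧ (∀ a ∈ W, a ∈ orig bs) ∧ W.length ≤ (orig bs).length ∧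
      (sub ≠ [] → W.length < (orig bs).length) ∧
      (∀ i, good i → ∀ y : M,
        y * (pv N v (orig bs) i * rem i) * (e0 i).1.1 = y * (pv N v (orig bs) i * rem i) →
        y * (pv N v W i * rem i)
          = y * (pv N v (orig bs) i * rem i) * gval e0 (sub.map Prod.snd).prod i) ∧
      (∀ i, th3 I' e (pv N v W i) (pv N v (orig bs) i)) := by
  induction hsub with
  | slnil =>
    intro _ _
    refine ⟨[], rfl, by simp, by simp, by simp, ?_, fun i => Or.inl rfl⟩
    intro i _ y hy
    have h1 : gval e0 (([] : List (Blk E × (Fin n → GN V))).map Prod.snd).prod i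
        = (e0 i).1.1 := rfl
    rw [h1]
    exact hy.symm
  | @cons sub bs c hs ih =>
    intro hV hB
    obtain ⟨W, hWp, hWm, hWl, hW2, hW3, hW4⟩ := ih hV.2 (fun c' hc' => hB c' (List.mem_cons_of_mem _ hc'))
    have horig : orig (c :: bs) = c.1.1 ++ orig bs := D11_orig_cons c bs
    have hop : Pt N v (orig bs) v := D11_orig_pt fun c' hc' => (hB c' (List.mem_cons_of_mem _ hc')).1
    obtain ⟨hc1, hc2, hcm, hcl, hc3⟩ := hB c List.mem_cons_self
    refine ⟨c.1.1 ++ W, pt_append.2 ⟨v, hc1, hWp⟩, ?_, ?_, ?_, ?_, ?_⟩
    · intro a ha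
      rw [horig, List.mem_append]
      rcases List.mem_append.1 ha with h | h
      · exact Or.inl h
      · exact Or.inr (hWm a h)
    · rw [horig, List.length_append, List.length_append]
      omega
    · intro hne
      rw [horig, List.length_append, List.length_append]
      have := hW2 hne
      omega
    · intro i hi y hy
      rw [horig, pv_append hc1 hop] at hy ⊢
      rw [pv_append hc1 hWp]
      have hy' : (y * pv N v c.1.1 i) * (pv N v (orig bs) i * rem i) * (e0 i).1.1
          = (y * pv N v c.1.1 i) * (pv N v (orig bs) i * rem i) := by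
        simp only [mul_assoc] at hy ⊢
        exact hy
      have := hW3 i hi _ hy'
      simp only [mul_assoc] at this ⊢
      exact this
    · intro i
      rw [horig, pv_append hc1 hop, pv_append hc1 hWp]
      have h := th3_congr' (hd i) he hI' he' hmin (U := pv N v c.1.1 i) (W := N.ep v i) (pv_right hc1 i)
        (pv_left hop i) (pv_right hop i) (pv_left hWp i) (pv_right hWp i) (N.id v i) (hW4 i)
      rw [mul_assoc, mul_assoc, pv_right hop i, pv_right hWp i] at h
      exact h
  | @cons_cons sub bs c hs ih =>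
    intro hV hB
    obtain ⟨W, hWp, hWm, hWl, hW2, hW3, hW4⟩ := ih hV.2 (fun c' hc' => hB c' (List.mem_cons_of_mem _ hc'))
    have horig : orig (c :: bs) = c.1.1 ++ orig bs := D11_orig_cons c bs
    have hop : Pt N v (orig bs) v := D11_orig_pt fun c' hc' => (hB c' (List.mem_cons_of_mem _ hc')).1
    obtain ⟨hc1, hc2, hcm, hcl, hc3⟩ := hB c List.mem_cons_self
    refine ⟨c.1.2 ++ W, pt_append.2 ⟨v, hc2, hWp⟩, ?_, ?_, ?_, ?_, ?_⟩
    · intro a ha
      rw [horig, List.mem_append]
      rcases List.mem_append.1 ha with h | h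
      · exact Or.inl (hcm a h)
      · exact Or.inr (hWm a h)
    · rw [horig, List.length_append, List.length_append]
      omega
    · intro _
      rw [horig, List.length_append, List.length_append]
      omega
    · intro i hi y hy
      rw [horig, pv_append hc1 hop] at hy ⊢
      rw [pv_append hc2 hWp, List.map_cons, List.prod_cons, D11_gval_mul]
      have hy0 : y * (pv N v c.1.1 i * (pv N v (orig bs) i * rem i)) * (e0 i).1.1
          = y * (pv N v c.1.1 i * (pv N v (orig bs) i * rem i)) := by
        simp only [mul_assoc] at hy ⊢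
        exact hy
      have h1 := hV.1 i hi y hy0
      have hy' : (y * pv N v c.1.2 i) * (pv N v (orig bs) i * rem i) * (e0 i).1.1
          = (y * pv N v c.1.2 i) * (pv N v (orig bs) i * rem i) := by
        have e1 : (y * pv N v c.1.2 i) * (pv N v (orig bs) i * rem i)
            = y * (pv N v c.1.1 i * (pv N v (orig bs) i * rem i)) * gval e0 c.2 i := by
          rw [← h1]; simp only [mul_assoc]
        rw [e1, mul_assoc, D11_gval_right]
      have h2 := hW3 i hi _ hy'
      calc y * (pv N v c.1.2 i * pv N v W i * rem i)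
          = (y * pv N v c.1.2 i) * (pv N v W i * rem i) := by simp only [mul_assoc]
        _ = (y * pv N v c.1.2 i) * (pv N v (orig bs) i * rem i)
              * gval e0 (sub.map Prod.snd).prod i := h2
        _ = (y * (pv N v c.1.2 i * (pv N v (orig bs) i * rem i)))
              * gval e0 (sub.map Prod.snd).prod i := by simp only [mul_assoc]
        _ = (y * (pv N v c.1.1 i * (pv N v (orig bs) i * rem i)) * gval e0 c.2 i)
              * gval e0 (sub.map Prod.snd).prod i := by rw [h1]
        _ = _ := by simp only [mul_assoc]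
    · intro i
      rw [horig, pv_append hc1 hop, pv_append hc2 hWp]
      have h1 := th3_congr' (hd i) he hI' he' hmin (U := pv N v c.1.2 i) (W := N.ep v i) (pv_right hc2 i)
        (pv_left hop i) (pv_right hop i) (pv_left hWp i) (pv_right hWp i) (N.id v i) (hW4 i)
      rw [mul_assoc, mul_assoc, pv_right hop i, pv_right hWp i] at h1
      have h2 := th3_congr' (hd i) he hI' he' hmin (U := N.ep v i) (W := pv N v (orig bs) i) (N.id v i)
        (pv_left hc1 i) (pv_right hc1 i) (pv_left hc2 i) (pv_right hc2 i) (pv_left hop i) (hc3 i)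
      rw [pv_left hc1 i, pv_left hc2 i] at h2
      exact th3.trans hI' he' h1 h2

end Pool.Agent.LibDS14
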