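import Pool.Agent.LibDS14.D10

/-!
[DS14 D12] (MEDIUM) Copy of `exists_valid` (LibSMP/GroupStep.lean) for loops at the vertex `v`: `list.prod i` becomes `pv N v list i` (`pv_append`, `pt_flatten`), `nu_exists` becomes `nu_exists'` at `d = N.ep v i` (`X' = pv N v c.2 i`, `pv_right`; `σ = pv N v (orig bν) i * rem i`, `pv_left`).
-/

set_option autoImplicit false

namespace Pool.Agent.LibDS14

open Pool.Agent.LibSMP

variable {M : Type*} [Monoid M] {n : ℕ} {Q E : Type*} {N : NetD M n Q E}

theorem exists_valid' [Finite M] {V : Set M} {v : Q} (hd : ∀ i, DSat (N.ep v i)) {I' : Set M} {e : M}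
    (he : e * e = e) (hI' : IsId I') (he' : e ∉ I') (t : Fin n → M) (e0 : Fin n → NI V) (rem : Fin n → M)
    (hrem : ∀ i, N.ep v i * rem i = rem i)
    (he0 : ∀ i, InJ e (t i) → (∃ a, t i = a * (e0 i).1.1) ∧ (∃ a, (e0 i).1.1 = a * t i)) :
    ∀ (bs : List (Blk E)) (P : Fin n → M), (∀ c ∈ bs, Pt N v c.1 v ∧ Pt N v c.2 v) →
      (∀ i, t i = P i * (pv N v (bs.map Prod.fst).flatten i * rem i)) →
      (∀ c ∈ bs, ∀ i, th3 I' e (pv N v c.2 i) (pv N v c.1 i)) →
      ∃ bν : List (Blk E × (Fin n → GN V)), bν.map Prod.fst = bs ∧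
        Valid N v (fun i => InJ e (t i)) e0 rem bν := by
  classical
  intro bs
  induction bs with
  | nil => intro P _ _ _; exact ⟨[], rfl, trivial⟩
  | cons c bs ih =>
    intro P hpt hP hB
    have hc := hpt c List.mem_cons_self
    have hptbs : ∀ c' ∈ bs, Pt N v c'.1 v ∧ Pt N v c'.2 v :=
      fun c' hc' => hpt c' (List.mem_cons_of_mem _ hc')
    have hflat : Pt N v (bs.map Prod.fst).flatten v := by
      apply pt_flatten
      intro x hx
      obtain ⟨c', hc', rfl⟩ := List.mem_map.1 hx
      exact (hptbs c' hc').1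
    have happ : ∀ i, pv N v ((c :: bs).map Prod.fst).flatten i
        = pv N v c.1 i * pv N v (bs.map Prod.fst).flatten i := by
      intro i
      rw [List.map_cons, List.flatten_cons]
      exact pv_append hc.1 hflat i
    obtain ⟨bν, h1, h2⟩ := ih (fun i => P i * pv N v c.1 i) hptbs (fun i => by
      rw [hP i, happ i]
      simp only [mul_assoc])
      (fun c' hc' => hB c' (List.mem_cons_of_mem _ hc'))
    have horig : orig bν = (bs.map Prod.fst).flatten := by
      rw [orig, ← h1, List.map_map]; rfl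
    have hex : ∀ i, ∃ ν : (Cor (e0 i).1)ˣ, InJ e (t i) → ∀ y : M,
        y * (pv N v c.1 i * (pv N v (orig bν) i * rem i)) * (e0 i).1.1
          = y * (pv N v c.1 i * (pv N v (orig bν) i * rem i)) →
        y * (pv N v c.2 i * (pv N v (orig bν) i * rem i))
          = y * (pv N v c.1 i * (pv N v (orig bν) i * rem i)) * ν.1.1 := by
      intro i
      by_cases hi : InJ e (t i)
      · have htP : t i = P i * (pv N v c.1 i * (pv N v (orig bν) i * rem i)) := by
          rw [hP i, happ i, horig]
          simp only [mul_assoc]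
        have hσ : N.ep v i * (pv N v (orig bν) i * rem i) = pv N v (orig bν) i * rem i := by
          rw [← mul_assoc, horig, pv_left hflat i]
        obtain ⟨ν, hν⟩ := nu_exists' (hd i) he hI' he' (pv_right hc.2 i) hσ hi htP (e0 i).1.2
          (he0 i hi).1 (he0 i hi).2 (hB c List.mem_cons_self i)
        exact ⟨ν, fun _ => hν⟩
      · exact ⟨1, fun h => absurd h hi⟩
    choose ν hν using hex
    refine ⟨(c, fun i => (Pi.mulSingle (e0 i) (ν i) : GN V)) :: bν, by simp [h1], ?_, h2⟩
    intro i hi y hy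
    have : gval e0 (fun i => (Pi.mulSingle (e0 i) (ν i) : GN V)) i = (ν i).1.1 := by
      simp [gval]
    rw [this]
    exact hν i hi y hy

end Pool.Agent.LibDS14
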