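import Pool.Agent.LibDS14.D3
import Pool.Agent.LibDS14.D11
import Pool.Agent.LibDS14.D12

/-!
[DS14 D13] (MEDIUM/LONG) Step G. Copy of `step_G` (LibSMP/GroupStep.lean) for loops in nets. `C` from `h`, `D` from `hPO`; exponent `C + D + 3`; strong induction on `w.length`; `s = n + card Q + 2`, `p = s ^ C`. If `w.length ≤ s ^ (C + D + 3)`: `w` itself. Otherwise `cut` with `K = (n + 2) ^ D`
(`card Q * ((n+2)^D * (p+1)) ≤ s * (s^D * (2 * s^C)) ≤ s^(C+D+3)`): `w = u ++ xs.flatten ++ z`, all `x ∈ xs` loops at `v` with `p < x.length`. `g x` = replacement of the loop `x` from `h`. `t i = pv N q w i = pv N q u i * (pv N v xs.flatten i * pv N v z i)`. `e0 i`: for `InJ e (t i)`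
`exists_idem_L he hi` gives `f`; `f` is J-below `t i`, so J-below `e`, hence not tame (`hnt`, `JLe.trans`); for the other `i` take `e`. `rem i = pv N v z i` (`pv_left`). `exists_valid'` with `P i = pv N q u i`, then `hPO`, `List.sublist_map_iff`, `select'` exactly as in `step_G`, `W` from `select'`;
`w₁ = u ++ W ++ z` is a shorter loop at `q` with edges in `w`; induction hypothesis and `relI.trans`; `relI I' (pv w₁ i) (pv w i)`: if `InJ e (t i)` the value statement of `select'` with `y = pv N q u i` and group element `1`; otherwise `th3_congr'` at `d = N.ep v i` (`U = pv u`, `W = pv z`).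
-/

set_option autoImplicit false

namespace Pool.Agent.LibDS14

open Pool.Agent.LibSMP

variable {M : Type*} [Monoid M]

private lemma D13_num (n c C D : ℕ) (L : ℕ) (h : (n + c + 2) ^ (C + D + 3) < L) :
    c * ((n + 2) ^ D * ((n + c + 2) ^ C + 1)) ≤ L := by
  refine le_trans ?_ h.le
  obtain ⟨s, hs⟩ : ∃ s : ℕ, s = n + c + 2 := ⟨_, rfl⟩
  rw [← hs]
  have h1 : c ≤ s := by omega
  have h2 : (n + 2) ^ D ≤ s ^ D := Nat.pow_le_pow_left (by omega) D
  have h3 : s ^ C + 1 ≤ s * s ^ C := by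
    have h4 : 1 ≤ s ^ C := Nat.one_le_pow _ _ (by omega)
    have h5 : 2 ≤ s := by omega
    nlinarith
  calc c * ((n + 2) ^ D * (s ^ C + 1)) ≤ s * (s ^ D * (s * s ^ C)) :=
        Nat.mul_le_mul h1 (Nat.mul_le_mul h2 h3)
    _ = s ^ (C + D + 2) := by ring
    _ ≤ s ^ (C + D + 3) := Nat.pow_le_pow_right (by omega) (by omega)

private lemma D13_gval_one {V : Set M} {n : ℕ} (e0 : Fin n → NI V) (i : Fin n) :
    gval e0 (1 : Fin n → GN V) i = (e0 i).1.1 := rfl

private lemma D13_nt {V : Set M} {e f t : M} (hnt : ¬ TameV V e) (ht : JLe t e)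
    (hf : ∃ a, f = a * t) : ¬ TameV V f := by
  intro h
  apply hnt
  intro d hd x h1 h2 h3
  obtain ⟨a, ha⟩ := hf
  exact h d hd x h1 h2 (JLe.trans (JLe.trans ⟨a, 1, by rw [mul_one]; exact ha⟩ ht) h3)

theorem step_G' [Finite M] {V : Set M} (hV : ∀ e ∈ V, DSat e) (hPO : PO (GN V)) {I' : Set M} {e : M}
    (he : e * e = e) (hI' : IsId I') (he' : e ∉ I') (hmin : ∀ y, y ∉ I' → JLe y e → JLe e y)
    (hnt : ¬ TameV V e) (h : LPr V (th3 I' e)) : LPr V (relI I') := by
  classical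
  obtain ⟨C, hC⟩ := h
  obtain ⟨D, hD⟩ := hPO
  refine ⟨C + D + 3, ?_⟩
  intro n Q E _ N hVN q w hw
  induction hL : w.length using Nat.strong_induction_on generalizing w with
  | _ L ih =>
  by_cases hlen : w.length ≤ (n + Fintype.card Q + 2) ^ (C + D + 3)
  · exact ⟨w, hw, fun a ha => ha, hlen, fun i => Or.inl rfl⟩
  push Not at hlen
  obtain ⟨v, u, xs, z, hw1, hu, hz, hxs, hx⟩ :=
    cut hw ((n + 2) ^ D) ((n + Fintype.card Q + 2) ^ C) (D13_num n (Fintype.card Q) C D _ hlen)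
  have hdv : ∀ i, DSat (N.ep v i) := fun i => hV _ (hVN v i)
  have hgex : ∀ x : List E, ∃ x' : List E, x ∈ xs → Pt N v x' v ∧ (∀ a ∈ x', a ∈ x) ∧
      x'.length ≤ (n + Fintype.card Q + 2) ^ C ∧
      ∀ i, th3 I' e (pv N v x' i) (pv N v x i) := by
    intro x
    by_cases hx1 : x ∈ xs
    · obtain ⟨x', h1, h2, h3, h4⟩ := hC n Q E N hVN v x (hx x hx1).1
      exact ⟨x', fun _ => ⟨h1, h2, h3, h4⟩⟩
    · exact ⟨[], fun h => absurd h hx1⟩
  choose g hg using hgex
  obtain ⟨t, ht⟩ : ∃ t : Fin n → M, ∀ i, t i = pv N q w i := ⟨fun i => pv N q w i, fun _ => rfl⟩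
  have hxf : Pt N v xs.flatten v := pt_flatten fun x hx1 => (hx x hx1).1
  have htu : ∀ i, t i = pv N q u i * (pv N v xs.flatten i * pv N v z i) := by
    intro i
    rw [ht, hw1, pv_three hu hxf hz i, mul_assoc]
  have hex : ∀ i, ∃ f : NI V, InJ e (t i) → (∃ a, t i = a * f.1.1) ∧ (∃ a, f.1.1 = a * t i) := by
    intro i
    by_cases hi : InJ e (t i)
    · obtain ⟨f, hf, h1, h2⟩ := exists_idem_L he hi
      exact ⟨⟨⟨f, hf⟩, D13_nt hnt hi.1 h2⟩, fun _ => ⟨h1, h2⟩⟩
    · exact ⟨⟨⟨e, he⟩, hnt⟩, fun h => absurd h hi⟩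
  choose e0 he0 using hex
  obtain ⟨rem, hrem⟩ : ∃ rem : Fin n → M, ∀ i, rem i = pv N v z i :=
    ⟨fun i => pv N v z i, fun _ => rfl⟩
  have hremd : ∀ i, N.ep v i * rem i = rem i := fun i => by rw [hrem]; exact pv_left hz i
  obtain ⟨bs2, hbs2⟩ : ∃ bs2 : List (Blk E), bs2 = xs.map (fun x => (x, g x)) := ⟨_, rfl⟩
  have hfst : (bs2.map Prod.fst).flatten = xs.flatten := by
    rw [hbs2]
    simp [List.map_map, Function.comp_def]
  obtain ⟨bν, hbν1, hbν2⟩ := exists_valid' hdv he hI' he' t e0 rem hremd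
    (fun i hi => he0 i hi) bs2 (fun i => pv N q u i) (by
      intro c hc
      rw [hbs2] at hc
      obtain ⟨x, hx1, rfl⟩ := List.mem_map.1 hc
      exact ⟨(hx x hx1).1, (hg x hx1).1⟩) (by
      intro i
      rw [hfst, hrem]
      exact htu i) (by
      intro c hc i
      rw [hbs2] at hc
      obtain ⟨x, hx1, rfl⟩ := List.mem_map.1 hc
      exact (hg x hx1).2.2.2 i)
  have horig : orig bν = xs.flatten := by
    rw [orig, ← hfst, ← hbν1, List.map_map]; rfl
  obtain ⟨K, hK1, hK2, hK3⟩ := hD n (bν.map Prod.snd) (by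
    rw [List.length_map]
    have h1 : bν.length = xs.length := by
      have h2 := congrArg List.length hbν1
      rw [hbs2] at h2
      simpa using h2
    rw [h1, hxs])
  obtain ⟨sub, hsub1, hsub2⟩ := List.sublist_map_iff.1 hK1
  obtain ⟨W, hW0, hW1, hW1', hW2, hW3, hW4⟩ := select' hdv he hI' he' hmin _ e0 rem hremd hsub1
    hbν2 (by
      intro c hc
      have h1 : c.1 ∈ bs2 := by rw [← hbν1]; exact List.mem_map_of_mem hc
      rw [hbs2] at h1
      obtain ⟨x, hx1, hxc⟩ := List.mem_map.1 h1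
      rw [← hxc]
      obtain ⟨g1, g2, g3, g4⟩ := hg x hx1
      exact ⟨(hx x hx1).1, g1, g2, lt_of_le_of_lt g3 (hx x hx1).2, g4⟩)
  have hsubne : sub ≠ [] := by
    rintro rfl
    exact hK2 (by simpa using hsub2)
  rw [horig] at hW1 hW2 hW3 hW4
  have hw1p : Pt N q (u ++ W ++ z) q := pt_three hu hW0 hz
  have hmem : ∀ a ∈ u ++ W ++ z, a ∈ w := by
    intro a ha
    rw [hw1]
    rcases List.mem_append.1 ha with ha | ha
    · rcases List.mem_append.1 ha with ha | ha
      · exact List.mem_append.2 (Or.inl (List.mem_append.2 (Or.inl ha)))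
      · exact List.mem_append.2 (Or.inl (List.mem_append.2 (Or.inr (hW1 a ha))))
    · exact List.mem_append.2 (Or.inr ha)
  have hlt : (u ++ W ++ z).length < L := by
    rw [← hL, hw1]
    simp only [List.length_append]
    have h1 := hW2 hsubne
    omega
  obtain ⟨w', h1, h2, h3, h4⟩ := ih _ hlt _ hw1p rfl
  refine ⟨w', h1, fun a ha => hmem a (h2 a ha), h3, fun i => relI.trans (h4 i) ?_⟩
  have e1 : pv N q (u ++ W ++ z) i = pv N q u i * (pv N v W i * rem i) := by
    rw [pv_three hu hW0 hz i, mul_assoc, hrem]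
  have e2 : pv N q w i = pv N q u i * (pv N v xs.flatten i * rem i) := by
    rw [← ht, htu, hrem]
  by_cases hi : InJ e (t i)
  · left
    have hte : t i * (e0 i).1.1 = t i := by
      obtain ⟨a, ha⟩ := (he0 i hi).1
      rw [ha, mul_assoc, (e0 i).1.2]
    have h5 := hW3 i hi (pv N q u i) (by rw [← e2, ← ht, hte])
    rw [← hsub2, hK3, D13_gval_one, ← e1, ← e2] at h5
    rw [h5, ← ht, hte]
  · have h6 := th3_congr' (hdv i) he hI' he' hmin (pv_right hu i) (pv_left hxf i) (pv_right hxf i)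
      (pv_left hW0 i) (pv_right hW0 i) (pv_left hz i) (hW4 i)
    rw [← pv_three hu hW0 hz i, ← pv_three hu hxf hz i, ← hw1] at h6
    rcases h6 with h6 | h6 | h6
    · exact Or.inl h6
    · exfalso
      apply hi
      rw [ht]
      exact h6.2.1
    · exact Or.inr h6

end Pool.Agent.LibDS14
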