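import Pool.Agent.LibDS14.D15b
import Pool.Agent.LibCR14.N8

/-!
[DS14 D15] (SHORT/MEDIUM) Base case. `c` from `exists_con (I0_id V)`. The quotient is finite (`Quotient.finite`, or `Finite.of_surjective` of `(↑) : M → c.Quotient`). For the finite monoid `c.Quotient`: `LibCR14.SPn _ d` for all `d` by induction (`SPn_zero`, `SPn_succ` in LibCR14/N8.lean), take `d = Nat.card c.Quotient + 1` and `A = univ`
(`LibCR14.dep_le`), exponent `C`. For a net `N`: `exists_qnet`, `crat_quot`; the path found in `N'` is the path; equality of classes means `relI (I0 V)` (`Con.eq`, `hc`).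
-/

set_option autoImplicit false

namespace Pool.Agent.LibDS14

open Pool.Agent.LibSMP

variable {M : Type*} [Monoid M]

private theorem D15_all (M : Type*) [Monoid M] [Finite M] (d : ℕ) : LibCR14.SPn M d := by
  induction d with
  | zero => exact LibCR14.SPn_zero M
  | succ d ih => exact LibCR14.SPn_succ M ih

theorem base_V [Finite M] {V : Set M} (hV : ∀ e ∈ V, e * e = e) : LPr V (relI (I0 V)) := by
  obtain ⟨c, hc⟩ := exists_con (I0_id V)
  have hfin : Finite c.Quotient := Finite.of_surjective (fun x : M => (x : c.Quotient)) Con.mk'_surjective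
  obtain ⟨C, hC⟩ := D15_all c.Quotient (Nat.card c.Quotient + 1)
  refine ⟨C, fun n Q E _ N hN q w hw => ?_⟩
  obtain ⟨N', hP, hv⟩ := exists_qnet N c (fun p i => crat_quot c hc (hN p i) (hV _ (hN p i)))
  obtain ⟨w', h1, h2, h3, h4⟩ := hC n Q E N' Finset.univ q q w ((hP w q q).2 hw)
    (fun i _ => Nat.lt_succ_of_le (LibCR14.dep_le _))
  refine ⟨w', (hP w' q q).1 h1, h2, h4, fun i => (hc _ _).1 ((Con.eq c).1 ?_)⟩
  rw [← hv w' q i, ← hv w q i]
  exact h3 i (Finset.mem_univ i)

end Pool.Agent.LibDS14
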