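import Pool.Agent.LibDS14.D1

/-!
[DS14 D5] (SHORT/MEDIUM, 2 lemmas) Copies of `both_cases` and `th3_congr` (LibSMP/JClass.lean): every `DS_mul hDS he` there becomes `ds_at hd he _ _` (D1.lean) at the idempotent `d` between the factors: `U * X` (`hU`, `hX1`), `(U * X) * W` (`(U * X) * d = U * X` by `mul_assoc`, `hX2`; `hW`).
`R_kept`, `L_kept`, `mem_I_cases`, `extend_ideal` are used as they are.
-/

set_option autoImplicit false

namespace Pool.Agent.LibDS14

open Pool.Agent.LibSMP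

variable {M : Type*} [Monoid M]

theorem both_cases' {d : M} (hd : DSat d) {I' : Set M} {e : M} (he : e * e = e) (hI' : IsId I') (he' : e ∉ I')
    (hmin : ∀ y, y ∉ I' → JLe y e → JLe e y) {U X X' W : M} (hU : U * d = U) (hX1 : d * X = X) (hX2 : X * d = X)
    (hX1' : d * X' = X') (hX2' : X' * d = X') (hW : d * W = W) (hX : InJ e X) (hX' : InJ e X') :
    (JLe e U ∧ JLe e W ∧ InJ e (U * X * W) ∧ InJ e (U * X' * W)) ∨ (U * X * W ∈ I' ∧ U * X' * W ∈ I') := by
  have hI := extend_ideal hI' hmin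
  have ht := hI _ (Or.inr hX) U W
  have ht' := hI _ (Or.inr hX') U W
  by_cases hUV : JLe e U ∧ JLe e W
  · left
    refine ⟨hUV.1, hUV.2, ?_, ?_⟩
    · rcases mem_I_cases hI' he' ht with h | h
      · exact h.2
      · exact absurd (ds_at hd he (by rw [mul_assoc, hX2]) hW (ds_at hd he hU hX1 hUV.1 hX.2) hUV.2) h.1
    · rcases mem_I_cases hI' he' ht' with h | h
      · exact h.2
      · exact absurd (ds_at hd he (by rw [mul_assoc, hX2']) hW (ds_at hd he hU hX1' hUV.1 hX'.2) hUV.2) h.1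
  · right
    constructor
    · rcases mem_I_cases hI' he' ht with h | h
      · exact absurd ⟨JLe_of_mul_left (JLe_of_mul_left h.1), JLe_of_mul_right h.1⟩ hUV
      · exact h.2
    · rcases mem_I_cases hI' he' ht' with h | h
      · exact absurd ⟨JLe_of_mul_left (JLe_of_mul_left h.1), JLe_of_mul_right h.1⟩ hUV
      · exact h.2

theorem th3_congr' [Finite M] {d : M} (hd : DSat d) {I' : Set M} {e : M} (he : e * e = e) (hI' : IsId I')
    (he' : e ∉ I') (hmin : ∀ y, y ∉ I' → JLe y e → JLe e y) {U X X' W : M} (hU : U * d = U) (hX1 : d * X = X)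
    (hX2 : X * d = X) (hX1' : d * X' = X') (hX2' : X' * d = X') (hW : d * W = W) (h : th3 I' e X' X) :
    th3 I' e (U * X' * W) (U * X * W) := by
  rcases h with rfl | ⟨h1, h2, hR, hL⟩ | ⟨h1, h2⟩
  · exact Or.inl rfl
  · rcases both_cases' hd he hI' he' hmin hU hX1 hX2 hX1' hX2' hW h2 h1 with
      ⟨hu, hv, ht, ht'⟩ | ⟨ht, ht'⟩
    · exact Or.inr (Or.inl ⟨ht', ht, R_kept h2 h1 ht ht' hR, L_kept h2 h1 ht ht' hL⟩)
    · exact Or.inr (Or.inr ⟨ht', ht⟩)
  · exact Or.inr (Or.inr ⟨hI' _ h1 _ _, hI' _ h2 _ _⟩)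

end Pool.Agent.LibDS14
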