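import Pool.Agent.LibDS14.D4
import Pool.Agent.LibDS14.D5

/-!
[DS14 D8] (MEDIUM) Step L. Copy of `step_L` (LibSMP/JClass.lean) with `net_step` instead of `single_step`, `Bad U X W := W ∉ I ∧ X ∈ I`, `I = I' ∪ {x | InJ e x}`, and `both_cases'` instead of `both_cases`.
-/

set_option autoImplicit false

namespace Pool.Agent.LibDS14

open Pool.Agent.LibSMP

variable {M : Type*} [Monoid M]

theorem step_L' [Finite M] {V : Set M} (hV : ∀ e ∈ V, DSat e) {I' : Set M} {e : M} (he : e * e = e) (hI' : IsId I')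
    (he' : e ∉ I') (hmin : ∀ y, y ∉ I' → JLe y e → JLe e y) (h : LPr V (th2 I' e)) : LPr V (th3 I' e) := by
  have hI := extend_ideal hI' hmin
  set I := I' ∪ {x | InJ e x} with hIdef
  apply net_step hV _ (th3 I' e) h (fun x => Or.inl rfl) (fun x y z => th3.trans hI' he')
    (fun _ X W => W ∉ I ∧ X ∈ I)
  · intro d hdV U X X' W hU hX1 hX2 hX1' hX2' hW _ hr hbad
    have hd := hV d hdV
    rcases hr with hr | ⟨hr1, hr2, hR1, hR2⟩ | ⟨hr1, hr2⟩
    · rw [hr]; exact Or.inl rfl
    · rcases both_cases' hd he hI' he' hmin hU hX1 hX2 hX1' hX2' hW hr2 hr1 with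
        ⟨hu, hv, ht, ht'⟩ | ⟨ht, ht'⟩
      · right; left
        refine ⟨ht', ht, R_kept hr2 hr1 ht ht' ⟨hR1, hR2⟩, ?_⟩
        have hvI : W ∈ I := by
          by_contra hv'
          exact hbad ⟨hv', Or.inr hr2⟩
        have hvJ : InJ e W := by
          rcases mem_I_cases hI' he' hvI with h | h
          · exact h.2
          · exact absurd hv h.1
        obtain ⟨z, hz⟩ := stab_L (hvJ.1.trans ht.2)
        obtain ⟨z', hz'⟩ := stab_L (hvJ.1.trans ht'.2)
        constructor
        · refine ⟨U * X' * z, ?_⟩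
          conv_lhs => rw [hz]
          simp only [mul_assoc]
        · refine ⟨U * X * z', ?_⟩
          conv_lhs => rw [hz']
          simp only [mul_assoc]
      · exact Or.inr (Or.inr ⟨ht', ht⟩)
    · exact Or.inr (Or.inr ⟨hI' _ hr1 _ _, hI' _ hr2 _ _⟩)
  · intro U X A Y W hb1 hb2
    apply hb1.1
    exact hI _ hb2.2 _ _

end Pool.Agent.LibDS14
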