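import Pool.Agent.LibDS14.D4

/-!
[DS14 D9] (MEDIUM) Step N (nonregular class). Copy of `step_N` (LibSMP/JClass.lean) with `net_step` instead of `single_step`, `Bad U X W := U ∉ I ∧ W ∉ I ∧ X ∈ I`. The statement `key` in the proof does not change.
-/

set_option autoImplicit false

namespace Pool.Agent.LibDS14

open Pool.Agent.LibSMP

variable {M : Type*} [Monoid M]

theorem step_N' [Finite M] {V : Set M} (hV : ∀ e ∈ V, DSat e) {I' : Set M} (hI' : IsId I') {j : M}
    (hmin : ∀ y, y ∉ I' → JLe y j → JLe j y) (hnr : ∀ x, InJ j x → ∀ z, x * z * x ≠ x)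
    (h : LPr V (relI (I' ∪ {x | InJ j x}))) : LPr V (relI I') := by
  have hI := extend_ideal hI' hmin
  set I := I' ∪ {x | InJ j x} with hIdef
  have key : ∀ x ∈ I, ∀ y ∈ I, ∀ m, x * m * y ∈ I' := by
    intro x hx y hy m
    rcases hx with hx | hx
    · rw [mul_assoc]; exact hI'.right hx _
    rcases hy with hy | hy
    · exact hI'.left hy _
    by_contra hcon
    have h1 : JLe (x * m * y) j := (JLe_mul_left _ _).trans hy.1
    have h2 := hmin _ hcon h1
    have h3 : JLe y ((x * m) * y) := hy.1.trans h2
    obtain ⟨z, hz⟩ := stab_L h3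
    obtain ⟨k, hk, hidem⟩ := exists_idem_pow (z * (x * m))
    have h4 : y = (z * (x * m)) * y * 1 := by rw [mul_one, mul_assoc, ← hz]
    have h5 := iter_aux (z * (x * m)) y 1 h4 k
    rw [one_pow, mul_one] at h5
    obtain ⟨k', rfl⟩ : ∃ k', k = k' + 1 := ⟨k - 1, by omega⟩
    apply hnr ((z * (x * m)) ^ (k' + 1)) _ 1
    · rw [mul_one, hidem]
    · constructor
      · refine JLe.trans ?_ hx.1
        rw [pow_succ]
        exact ⟨(z * (x * m)) ^ k' * z, m, by simp only [mul_assoc]⟩
      · refine hy.2.trans ?_
        conv_lhs => rw [h5]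
        exact JLe_mul_right _ _
  apply net_step hV _ (relI I') h (fun x => Or.inl rfl) (fun x y z => relI.trans)
    (fun U X W => U ∉ I ∧ W ∉ I ∧ X ∈ I)
  · intro d _ U X X' W _ _ _ _ _ _ _ hr hbad
    rcases hr with hr | ⟨hr1, hr2⟩
    · rw [hr]; exact Or.inl rfl
    · right
      by_cases hu : U ∈ I
      · constructor
        · have := key _ hu _ hr1 1
          rw [mul_one] at this
          exact hI'.right this _
        · have := key _ hu _ hr2 1
          rw [mul_one] at this
          exact hI'.right this _
      · by_cases hv : W ∈ I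
        · constructor
          · have := key _ hr1 _ hv 1
            rw [mul_one] at this
            rw [mul_assoc]
            exact hI'.left this _
          · have := key _ hr2 _ hv 1
            rw [mul_one] at this
            rw [mul_assoc]
            exact hI'.left this _
        · exact absurd ⟨hu, hv, hr2⟩ hbad
  · intro U X A Y W hb1 hb2
    apply hb2.1
    exact hI _ hb1.2.2 _ _

end Pool.Agent.LibDS14
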