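import Pool.Agent.LibDS14.D6
import Pool.Agent.LibDS14.D7
import Pool.Agent.LibDS14.D8
import Pool.Agent.LibDS14.D9
import Pool.Agent.LibDS14.D13
import Pool.Agent.LibDS14.D15

/-!
[DS14 D14] (MEDIUM) Main induction. Copy of `ds_ideal` (LibSMP/DSMain.lean), but inside the ideal `I0 V` (`I0_id`: it is an ideal, see D15.lean). Induction on `m`. If `I0 V \ I' = ∅` then `I' = I0 V` and this is `base_V`. Otherwise `j` J-minimal in `I0 V \ I'`; `hmin : ∀ y, y ∉ I' → JLe y j → JLe j y` (`y` is in
`I0 V` as it is J-below `j`). `I' ∪ {x | InJ j x}` is an ideal inside `I0 V` and smaller difference: induction hypothesis. Regular class: idempotent `e` as in `ds_ideal` (not tame because it is J-below `j`), `step_E'`, `step_R'`, `step_L'`, `step_G'`; nonregular: `step_N'`.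
`lpr_eq`: `I' = ∅`, `m = (I0 V \ ∅).ncard`: `relI ∅ x y` is `x = y`.
-/

set_option autoImplicit false

namespace Pool.Agent.LibDS14

open Pool.Agent.LibSMP

variable {M : Type*} [Monoid M]

theorem ds_ideal' [Finite M] {V : Set M} (hV : ∀ e ∈ V, DSat e) (hPO : PO (GN V)) :
    ∀ (m : ℕ) (I' : Set M), IsId I' → I' ⊆ I0 V → (I0 V \ I').ncard ≤ m → LPr V (relI I') := by
  classical
  have hbase : LPr V (relI (I0 V)) := base_V fun e he => (hV e he).1
  have hfullc : ∀ I' : Set M, I' ⊆ I0 V → I0 V \ I' = ∅ → LPr V (relI I') := by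
    intro I' hsub h0
    have h1 : I' = I0 V := Set.Subset.antisymm hsub (Set.diff_eq_empty.1 h0)
    rw [h1]
    exact hbase
  intro m
  induction m with
  | zero =>
    intro I' hI' hsub hc
    refine hfullc I' hsub ?_
    rw [← Set.ncard_eq_zero (Set.toFinite _)]
    omega
  | succ m ih =>
    intro I' hI' hsub hc
    by_cases hempty : I0 V \ I' = ∅
    · exact hfullc I' hsub hempty
    have hne : (I0 V \ I').Nonempty := Set.nonempty_iff_ne_empty.2 hempty
    have hwf : WellFounded (fun x y : M => JLe x y ∧ ¬ JLe y x) := by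
      have : IsStrictOrder M (fun x y : M => JLe x y ∧ ¬ JLe y x) :=
        { irrefl := fun x h => h.2 h.1
          trans := fun x y z h1 h2 => ⟨h1.1.trans h2.1, fun h => h1.2 (h2.1.trans h)⟩ }
      exact Finite.wellFounded_of_trans_of_irrefl _
    obtain ⟨j, hj, hjmin⟩ := hwf.has_min _ hne
    have hI0 : ∀ y, JLe y j → y ∈ I0 V := by
      rintro y ⟨a, b, rfl⟩
      exact I0_id V j hj.1 a b
    have hmin : ∀ y, y ∉ I' → JLe y j → JLe j y := by
      intro y hy hyj
      by_contra hcon
      exact hjmin y ⟨hI0 y hyj, hy⟩ ⟨hyj, hcon⟩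
    have hbig : LPr V (relI (I' ∪ {x | InJ j x})) := by
      apply ih _ (extend_ideal hI' hmin)
      · rintro x (hx | hx)
        · exact hsub hx
        · exact hI0 x hx.1
      · have hlt : (I0 V \ (I' ∪ {x | InJ j x})).ncard < (I0 V \ I').ncard := by
          apply Set.ncard_lt_ncard _ (Set.toFinite _)
          refine ⟨?_, ?_⟩
          · intro x hx
            exact ⟨hx.1, fun h => hx.2 (Or.inl h)⟩
          · intro hs
            have := hs hj
            exact this.2 (Or.inr ⟨JLe.refl j, JLe.refl j⟩)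
        omega
    by_cases hreg : ∃ x, InJ j x ∧ ∃ z, x * z * x = x
    · obtain ⟨x, hx, z, hz⟩ := hreg
      have he : (x * z) * (x * z) = x * z := by
        rw [← mul_assoc, hz]
      have hex : JLe (x * z) x := JLe_mul_right _ _
      have hxe : JLe x (x * z) := ⟨1, x, by rw [one_mul, hz]⟩
      have hje : JLe j (x * z) := hx.2.trans hxe
      have hej : JLe (x * z) j := hex.trans hx.1
      set e := x * z with hedef
      have he' : e ∉ I' := by
        intro h
        obtain ⟨a, b, hab⟩ := hje
        exact hj.2 (by rw [hab]; exact hI' _ h a b)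
      have hmin' : ∀ y, y ∉ I' → JLe y e → JLe e y :=
        fun y hy hye => hej.trans (hmin y hy (hye.trans hej))
      have hset : (I' ∪ {x | InJ j x}) = (I' ∪ {x | InJ e x}) := by
        ext y
        constructor
        · rintro (h | h)
          · exact Or.inl h
          · exact Or.inr ⟨h.1.trans hje, hej.trans h.2⟩
        · rintro (h | h)
          · exact Or.inl h
          · exact Or.inr ⟨h.1.trans hej, hje.trans h.2⟩
      rw [hset] at hbig
      exact step_G' hV hPO he hI' he' hmin' (hI0 e hej) (step_L' hV he hI' he' hmin'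
        (step_R' hV he hI' he' hmin' (step_E' hV he hI' he' hmin' hbig)))
    · push Not at hreg
      exact step_N' hV hI' hmin (fun x hx z => hreg x hx z) hbig

theorem lpr_eq [Finite M] {V : Set M} (hV : ∀ e ∈ V, DSat e) (hPO : PO (GN V)) :
    LPr V (fun x y => x = y) := by
  obtain ⟨C, hC⟩ := ds_ideal' hV hPO _ ∅ (fun x hx => absurd hx (Set.notMem_empty x)) (Set.empty_subset _) le_rfl
  refine ⟨C, fun n Q E _ N hN q w hw => ?_⟩
  obtain ⟨w', h1, h2, h3, h4⟩ := hC n Q E N hN q w hw
  refine ⟨w', h1, h2, h3, fun i => ?_⟩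
  rcases h4 i with h | h
  · exact h
  · exact absurd h.1 (Set.notMem_empty _)

end Pool.Agent.LibDS14
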