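import Pool.Agent.LibDS14.D0
import Pool.Agent.LibCR14.Defs2

/-!
[DS14 D15a] (SHORT, 3 lemmas) The ideal `I0 V` and the Rees quotient.
`I0_id`: `f ∈ I0 V`: there are `e ∈ V`, `x` in `eMe`, `JLe f x`, `x` not completely regular. `a * f * b` is J-below `f` (`JLe_mid`), so the same `e`, `x` work for it.
`exists_con`: the relation `relI I` is an equivalence and compatible with products (`relI`: `x = y` or both in `I`; products with an element of `I` are in `I`: `IsId.left`, `IsId.right`). `Con` has fields `toSetoid` (r, iseqv) and `mul'`.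
`crat_quot`: `e * e = e` passes to the quotient. Let `x̄` with `ē x̄ = x̄ = x̄ ē`; `x̄` is the class of some `x`, hence of `y := e * x * e` (`Con.coe_mul`). If `y ∈ I0 V`: every element of the quotient times `ȳ` is `ȳ` (both products are in `I0 V`), so take `ȳ` itself. If `y ∉ I0 V`: `TameV V y`, applied to `e`, `x := y`
(`JLe.refl`), gives `z` with `y z y = y`, `y z = z y`: take the class of `z`.
-/

set_option autoImplicit false

namespace Pool.Agent.LibDS14

open Pool.Agent.LibSMP

variable {M : Type*} [Monoid M]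

theorem I0_id (V : Set M) : IsId (I0 V) := by
  intro f hf a b h
  refine hf ?_
  intro e he x h1 h2 h3
  exact h e he x h1 h2 ((JLe_mid a f b).trans h3)

theorem exists_con {I : Set M} (hI : IsId I) : ∃ c : Con M, ∀ x y : M, c x y ↔ relI I x y := by
  refine ⟨{ r := relI I, iseqv := ⟨?_, ?_, ?_⟩, mul' := ?_ }, fun x y => Iff.rfl⟩
  · intro x
    exact Or.inl rfl
  · rintro x y (h | h)
    · exact Or.inl h.symm
    · exact Or.inr ⟨h.2, h.1⟩
  · rintro x y z (rfl | h) (rfl | h')
    · exact Or.inl rfl
    · exact Or.inr h'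
    · exact Or.inr h
    · exact Or.inr ⟨h.1, h'.2⟩
  · rintro w x y z (rfl | h) (rfl | h')
    · exact Or.inl rfl
    · exact Or.inr ⟨hI.left h'.1 w, hI.left h'.2 w⟩
    · exact Or.inr ⟨hI.right h.1 y, hI.right h.2 y⟩
    · exact Or.inr ⟨hI.right h.1 y, hI.right h.2 z⟩

theorem crat_quot {V : Set M} (c : Con M) (hc : ∀ x y : M, c x y ↔ relI (I0 V) x y) {e : M} (he : e ∈ V)
    (hee : e * e = e) : LibCR14.CRat ((e : M) : c.Quotient) := by
  refine ⟨?_, ?_⟩
  · rw [← Con.coe_mul, hee]
  · intro x' h1 h2
    induction x' using Con.induction_on with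
    | H x =>
      have hy : ((e * x * e : M) : c.Quotient) = (x : c.Quotient) := by
        rw [Con.coe_mul, Con.coe_mul, h1, h2]
      rw [← hy]
      by_cases hI : e * x * e ∈ I0 V
      · have h3 : ((e * x * e : M) : c.Quotient) * ((e * x * e : M) : c.Quotient) = ((e * x * e : M) : c.Quotient) := by
          rw [← Con.coe_mul]
          exact (Con.eq c).2 ((hc _ _).2 (Or.inr ⟨(I0_id V).left hI _, hI⟩))
        exact ⟨((e * x * e : M) : c.Quotient), by rw [h3, h3], rfl⟩
      · have hT : TameV V (e * x * e) := by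
          by_contra h
          exact hI h
        obtain ⟨z, hz1, hz2⟩ := hT e he (e * x * e) (by rw [mul_assoc e x e, ← mul_assoc e e, hee])
          (by rw [mul_assoc (e * x) e e, hee]) (JLe.refl _)
        refine ⟨(z : c.Quotient), ?_, ?_⟩
        · rw [← Con.coe_mul, ← Con.coe_mul, hz1]
        · rw [← Con.coe_mul, ← Con.coe_mul, hz2]

end Pool.Agent.LibDS14
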