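import Pool.Agent.LibDS14.D15a

/-!
[DS14 D15b] (SHORT) The net over the quotient monoid: `src`, `tgt` as in `N`, `ep q i` and `vl a i` the classes; `cr` by hypothesis; `hl`, `hr` from `N.hl`, `N.hr` (`Con.coe_mul`). The two statements by induction on `l` (generalizing `q`).
-/

set_option autoImplicit false

namespace Pool.Agent.LibDS14

open Pool.Agent.LibSMP

variable {M : Type*} [Monoid M] {n : ℕ} {Q E : Type*}

theorem exists_qnet (N : NetD M n Q E) (c : Con M)
    (hcr : ∀ q i, LibCR14.CRat ((N.ep q i : M) : c.Quotient)) :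
    ∃ N' : LibCR14.Net c.Quotient n Q E, (∀ (l : List E) (q q' : Q), LibCR14.Pt N' q l q' ↔ Pt N q l q') ∧
      ∀ (l : List E) (q : Q) (i : Fin n), LibCR14.pv N' q l i = ((pv N q l i : M) : c.Quotient) := by
  let N' : LibCR14.Net c.Quotient n Q E :=
    { src := N.src
      tgt := N.tgt
      ep := fun q i => ((N.ep q i : M) : c.Quotient)
      vl := fun a i => ((N.vl a i : M) : c.Quotient)
      cr := hcr
      hl := fun a i => by
        rw [← Con.coe_mul, N.hl]
      hr := fun a i => by
        rw [← Con.coe_mul, N.hr] }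
  refine ⟨N', ?_, ?_⟩
  · intro l
    induction l with
    | nil => intro q q'; exact Iff.rfl
    | cons a l ih =>
      intro q q'
      exact and_congr Iff.rfl (ih (N.tgt a) q')
  · intro l
    induction l with
    | nil => intro q i; rfl
    | cons a l ih =>
      intro q i
      show ((N.vl a i : M) : c.Quotient) * LibCR14.pv N' (N.tgt a) l i =
        ((N.vl a i * pv N (N.tgt a) l i : M) : c.Quotient)
      rw [ih (N.tgt a) i, Con.coe_mul]

end Pool.Agent.LibDS14
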