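import Pool.Agent.LibDS14.D0

/-! From loops to paths (copy of LibCR14.N7 for NetD, values on all coordinates). -/

set_option autoImplicit false

namespace Pool.Agent.LibDS14

open Pool.Agent.LibSMP

variable {M : Type*} [Monoid M] {n : ℕ} {Q E : Type*} {N : NetD M n Q E}

private theorem N7_last {q q' : Q} : ∀ (m : ℕ) (w : List E), w.length ≤ m → Pt N q w q' →
    ∃ l w₂ : List E, w = l ++ w₂ ∧ Pt N q l q ∧ Pt N q w₂ q' ∧ ∀ a ∈ w₂, N.tgt a ≠ q := by
  intro m
  induction m with
  | zero =>
    intro w hw h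
    have h0 : w = [] := List.eq_nil_of_length_eq_zero (Nat.le_zero.1 hw)
    subst h0
    exact ⟨[], [], rfl, rfl, h, fun a ha => absurd ha List.not_mem_nil⟩
  | succ m ih =>
    intro w hw h
    by_cases hex : ∃ a ∈ w, N.tgt a = q
    · obtain ⟨a, ha, hta⟩ := hex
      obtain ⟨w₁, w₂, hw12, h1, h2⟩ := pt_split h ha
      rw [hta] at h2
      have hlen : w₂.length ≤ m := by
        rw [hw12, List.length_append, List.length_cons] at hw
        omega
      obtain ⟨l', w₂', he, hl', hw', hne⟩ := ih w₂ hlen h2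
      refine ⟨w₁ ++ a :: l', w₂', ?_, ?_, hw', hne⟩
      · rw [hw12, he, List.append_assoc, List.cons_append]
      · refine pt_append.2 ⟨N.src a, h1, rfl, ?_⟩
        rw [hta]
        exact hl'
    · exact ⟨[], w, rfl, rfl, h, fun a ha he => hex ⟨a, ha, he⟩⟩

theorem path_of_loops [Fintype Q] [DecidableEq Q] {b : ℕ}
    (hL : ∀ (v : Q) (l : List E), Pt N v l v →
      ∃ l' : List E, Pt N v l' v ∧ (∀ a ∈ l', a ∈ l) ∧ (∀ i, pv N v l' i = pv N v l i) ∧ l'.length ≤ b)
    (k : ℕ) : ∀ (F : Finset Q) (q q' : Q) (w : List E), (Finset.univ \ F).card ≤ k → Pt N q w q' → q ∉ F →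
      (∀ a ∈ w, N.tgt a ∉ F) →
      ∃ w' : List E, Pt N q w' q' ∧ (∀ a ∈ w', a ∈ w) ∧ (∀ i, pv N q w' i = pv N q w i) ∧
        w'.length ≤ k * (b + 1) := by
  induction k with
  | zero =>
    intro F q q' w hc _ hq _
    have h1 : q ∈ Finset.univ \ F := Finset.mem_sdiff.2 ⟨Finset.mem_univ q, hq⟩
    have h2 : 0 < (Finset.univ \ F).card := Finset.card_pos.2 ⟨q, h1⟩
    omega
  | succ k ih =>
    intro F q q' w hc hw hq ht
    obtain ⟨l, w₂, hw2, hl, hp2, hne⟩ := N7_last w.length w le_rfl hw
    subst hw2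
    have hpv : ∀ i, pv N q (l ++ w₂) i = pv N q l i * pv N q w₂ i := fun i => pv_append hl hp2 i
    obtain ⟨l', hl1, hl2, hl3, hl4⟩ := hL q l hl
    cases w₂ with
    | nil =>
      have hqq : q = q' := hp2
      subst hqq
      refine ⟨l', hl1, fun a ha => List.mem_append_left _ (hl2 a ha), ?_, ?_⟩
      · intro i
        rw [hl3 i, List.append_nil]
      · calc l'.length ≤ b + 1 := by omega
          _ ≤ (k + 1) * (b + 1) := Nat.le_mul_of_pos_left _ (Nat.succ_pos k)
    | cons a w₃ =>
      obtain ⟨hsrc, hp3⟩ : N.src a = q ∧ Pt N (N.tgt a) w₃ q' := hp2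
      have hmema : a ∈ l ++ a :: w₃ := List.mem_append_right _ List.mem_cons_self
      have hq1 : N.tgt a ∉ insert q F := by
        rw [Finset.mem_insert]
        rintro (h | h)
        · exact hne a List.mem_cons_self h
        · exact ht a hmema h
      have hcard : (Finset.univ \ insert q F).card ≤ k := by
        have h1 : q ∈ Finset.univ \ F := Finset.mem_sdiff.2 ⟨Finset.mem_univ q, hq⟩
        have h2 : Finset.univ \ insert q F = (Finset.univ \ F).erase q := by
          ext x
          simp only [Finset.mem_sdiff, Finset.mem_univ, true_and, Finset.mem_insert, Finset.mem_erase, not_or, ne_eq]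
        rw [h2, Finset.card_erase_of_mem h1]
        omega
      have hpw : ∀ i, pv N q (l ++ a :: w₃) i = pv N q l i * N.vl a i * pv N (N.tgt a) w₃ i := by
        intro i
        rw [hpv, pv_cons, mul_assoc]
      have ht3 : ∀ c ∈ w₃, N.tgt c ∉ insert q F := by
        intro c hc3
        rw [Finset.mem_insert]
        rintro (h | h)
        · exact hne c (List.mem_cons_of_mem _ hc3) h
        · exact ht c (List.mem_append_right _ (List.mem_cons_of_mem _ hc3)) h
      obtain ⟨w₃', h31, h32, h33, h34⟩ := ih (insert q F) (N.tgt a) q' w₃ hcard hp3 hq1 ht3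
      have hp' : Pt N q (a :: w₃') q' := ⟨hsrc, h31⟩
      refine ⟨l' ++ a :: w₃', pt_append.2 ⟨q, hl1, hp'⟩, ?_, ?_, ?_⟩
      · intro c hc'
        rcases List.mem_append.1 hc' with h | h
        · exact List.mem_append_left _ (hl2 c h)
        · rcases List.mem_cons.1 h with h | h
          · rw [h]
            exact hmema
          · exact List.mem_append_right _ (List.mem_cons_of_mem _ (h32 c h))
      · intro i
        rw [pv_append hl1 hp' i, pv_cons, hl3 i, h33 i, hpw, mul_assoc]
      · rw [List.length_append, List.length_cons]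
        have : (k + 1) * (b + 1) = k * (b + 1) + (b + 1) := by ring
        omega

theorem short_paths {M : Type*} [Monoid M] {V : Set M} (h : LPr V (fun x y => x = y)) :
    ∃ C : ℕ, ∀ (n : ℕ) (Q E : Type) [Fintype Q] (N : NetD M n Q E), (∀ q i, N.ep q i ∈ V) →
      ∀ (q q' : Q) (w : List E), Pt N q w q' →
        ∃ w' : List E, Pt N q w' q' ∧ (∀ i, pv N q w' i = pv N q w i) ∧
          w'.length ≤ (n + Fintype.card Q + 2) ^ C := by
  obtain ⟨C, hC⟩ := h
  refine ⟨C + 2, fun n Q E _ N hN q q' w hw => ?_⟩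
  classical
  obtain ⟨w', h1, -, h3, h4⟩ := path_of_loops (N := N) (b := (n + Fintype.card Q + 2) ^ C)
    (fun v l hl => by
      obtain ⟨l', a1, a2, a3, a4⟩ := hC n Q E N hN v l hl
      exact ⟨l', a1, a2, a4, a3⟩) (Fintype.card Q) ∅ q q' w (by simp) hw
    (Finset.notMem_empty _) (fun a _ => Finset.notMem_empty _)
  refine ⟨w', h1, h3, h4.trans ?_⟩
  set s := n + Fintype.card Q + 2 with hs
  have h5 : 1 ≤ s ^ C := Nat.one_le_pow _ _ (by omega)
  calc Fintype.card Q * (s ^ C + 1) ≤ s * (s ^ C * 2) := Nat.mul_le_mul (by omega) (by omega)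
    _ ≤ s * (s ^ C * s) := Nat.mul_le_mul_left _ (Nat.mul_le_mul_left _ (by omega))
    _ = s ^ (C + 2) := by ring

end Pool.Agent.LibDS14
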