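import Pool.Agent.LibDS14.D0
import Pool.Agent.LibSMP.Words

/-!
[DS14 D17a] (MEDIUM, 3 lemmas) From `S` to `WithOne S`.
`dsat_coe`: `(e : WithOne S)` is idempotent (`WithOne.coe_mul`). For `x` with `e * x = x` in `WithOne S`, `x ≠ 1` (else `(e : WithOne S) = 1`, `WithOne.coe_ne_one`), so `x`, `y` are coercions; `∃ z, x * z * x = x`: `z` can be replaced by `x * z * x`-like element of `S`: if `z = 1` then `x * x = x`, take `z := x`;
`JLe x y`: `x = a * y * b` with `a, b` in `WithOne S`: replace `a`, `b` by `e * a`, `b * e` (`e * x = x`, `x * e = x`, `e * y = y = y * e`), which are coercions. Then apply `h : LocallyDS S` (LibSMP/LDS.lean) and coerce the result.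
`tameV_coe`: unfold; `e ∈ VS S` is a coercion of an idempotent; an `x` in the local monoid is a coercion; the `y : WithOne S` in `TameV`: if `y = 1` then `x * x = x`, take `y := x`.
`solv_NI`: `f : NI (VS S)`; `f.1.1 ≠ 1` because `1` is tame (`JLe 1 x` with `x` a coercion is impossible: a product in `WithOne S` with a coercion is a coercion). So `f.1.1 = (e : WithOne S)`; units of `Cor f.1` have values `≠ 1` (`f * x = x`), so they are coercions: define the semigroup hom to `S` by `WithOne.unone` (or by choice),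
injective (`Units.ext`, `Subtype.ext`), sends `1` to `e`, `Tame S e` is false by `tameV_coe`.
-/

set_option autoImplicit false

namespace Pool.Agent.LibDS14

open Pool.Agent.LibSMP

universe u

private theorem D17a_coe {S : Type u} [Semigroup S] {e : S} {x : WithOne S} (h : (e : WithOne S) * x = x) :
    ∃ s : S, x = (s : WithOne S) := by
  induction x using WithOne.recOneCoe with
  | one =>
    rw [mul_one] at h
    exact absurd h WithOne.coe_ne_one
  | coe s => exact ⟨s, rfl⟩

private theorem D17a_ne {S : Type u} [Semigroup S] (x : S) (a b : WithOne S) : a * (x : WithOne S) * b ≠ 1 := by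
  induction a using WithOne.recOneCoe with
  | one =>
    induction b using WithOne.recOneCoe with
    | one =>
      rw [one_mul, mul_one]
      exact WithOne.coe_ne_one
    | coe b =>
      rw [one_mul, ← WithOne.coe_mul]
      exact WithOne.coe_ne_one
  | coe a =>
    induction b using WithOne.recOneCoe with
    | one =>
      rw [mul_one, ← WithOne.coe_mul]
      exact WithOne.coe_ne_one
    | coe b =>
      rw [← WithOne.coe_mul, ← WithOne.coe_mul]
      exact WithOne.coe_ne_one

private theorem D17a_sq {S : Type u} [Semigroup S] {e : S} (he : e * e = e) (z : WithOne S) :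
    ∃ c : S, (c : WithOne S) = (e : WithOne S) * z * (e : WithOne S) := by
  obtain ⟨c, hc⟩ := exists_squeeze ⟨e, he⟩ z
  exact ⟨c.1, hc⟩

private theorem D17a_jle {S : Type u} [Semigroup S] {e x y : S} (he : e * e = e) (hx : e * x = x) (hx' : x * e = x)
    (hy : e * y = y) (hy' : y * e = y) (h : JLe (x : WithOne S) (y : WithOne S)) : ∃ a b : S, x = a * y * b := by
  obtain ⟨a, b, hab⟩ := h
  obtain ⟨a', ha⟩ := D17a_sq he a
  obtain ⟨b', hb⟩ := D17a_sq he b
  refine ⟨a', b', ?_⟩
  apply WithOne.coe_inj.1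
  rw [WithOne.coe_mul, WithOne.coe_mul, ha, hb]
  have h1 : (e : WithOne S) * (y : WithOne S) = y := by rw [← WithOne.coe_mul, hy]
  have h2 : (y : WithOne S) * (e : WithOne S) = y := by rw [← WithOne.coe_mul, hy']
  have h3 : (x : WithOne S) = (e : WithOne S) * x * e := by rw [← WithOne.coe_mul, hx, ← WithOne.coe_mul, hx']
  rw [h3, hab]
  calc (e : WithOne S) * (a * (y : WithOne S) * b) * (e : WithOne S)
      = (e : WithOne S) * (a * ((e : WithOne S) * (y : WithOne S) * (e : WithOne S)) * b) * (e : WithOne S) := by rw [h1, h2]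
    _ = _ := by simp only [mul_assoc]

theorem dsat_coe {S : Type u} [Semigroup S] (h : LocallyDS S) {e : S} (he : e * e = e) : DSat (e : WithOne S) := by
  have he' : (e : WithOne S) * (e : WithOne S) = e := by rw [← WithOne.coe_mul, he]
  refine ⟨he', ?_⟩
  rintro x y hx hx' hy hy' ⟨z, hz⟩ hxy hyx
  obtain ⟨x, rfl⟩ := D17a_coe hx
  obtain ⟨y, rfl⟩ := D17a_coe hy
  have hx1 : e * x = x := WithOne.coe_inj.1 (by rw [WithOne.coe_mul]; exact hx)
  have hx2 : x * e = x := WithOne.coe_inj.1 (by rw [WithOne.coe_mul]; exact hx')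
  have hy1 : e * y = y := WithOne.coe_inj.1 (by rw [WithOne.coe_mul]; exact hy)
  have hy2 : y * e = y := WithOne.coe_inj.1 (by rw [WithOne.coe_mul]; exact hy')
  obtain ⟨z', hz'⟩ : ∃ z' : S, x * z' * x = x := by
    induction z using WithOne.recOneCoe with
    | one =>
      rw [mul_one, ← WithOne.coe_mul] at hz
      have h1 : x * x = x := WithOne.coe_inj.1 hz
      exact ⟨x, by rw [h1, h1]⟩
    | coe z =>
      rw [← WithOne.coe_mul, ← WithOne.coe_mul] at hz
      exact ⟨z, WithOne.coe_inj.1 hz⟩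
  obtain ⟨a, b, hab⟩ := D17a_jle he hx1 hx2 hy1 hy2 hxy
  obtain ⟨c, d, hcd⟩ := D17a_jle he hy1 hy2 hx1 hx2 hyx
  obtain ⟨p, q, hpq⟩ := h e x y z' a b c d he hx1 hx2 hy1 hy2 hz' hab hcd
  refine ⟨(p : WithOne S), (q : WithOne S), ?_⟩
  rw [← WithOne.coe_mul, ← WithOne.coe_mul, ← WithOne.coe_mul, ← hpq]

theorem tameV_coe {S : Type u} [Semigroup S] (s : S) : TameV (VS S) (s : WithOne S) ↔ Tame S s := by
  constructor
  · intro H e x he hx hx' hab
    obtain ⟨a, b, hab⟩ := hab
    obtain ⟨y, hy, hy'⟩ := H (e : WithOne S) ⟨e, he, rfl⟩ (x : WithOne S)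
      (by rw [← WithOne.coe_mul, hx]) (by rw [← WithOne.coe_mul, hx']) ⟨a, b, hab⟩
    induction y using WithOne.recOneCoe with
    | one =>
      rw [mul_one, ← WithOne.coe_mul] at hy
      have h1 : x * x = x := WithOne.coe_inj.1 hy
      exact ⟨x, by rw [h1, h1], rfl⟩
    | coe y =>
      rw [← WithOne.coe_mul, ← WithOne.coe_mul] at hy
      rw [← WithOne.coe_mul, ← WithOne.coe_mul] at hy'
      exact ⟨y, WithOne.coe_inj.1 hy, WithOne.coe_inj.1 hy'⟩
  · intro H m hm x hx hx' hab
    obtain ⟨e, he, rfl⟩ := hm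
    obtain ⟨x, rfl⟩ := D17a_coe hx
    obtain ⟨a, b, hab⟩ := hab
    obtain ⟨y, hy, hy'⟩ := H e x he (WithOne.coe_inj.1 (by rw [WithOne.coe_mul]; exact hx))
      (WithOne.coe_inj.1 (by rw [WithOne.coe_mul]; exact hx')) ⟨a, b, hab⟩
    refine ⟨(y : WithOne S), ?_, ?_⟩
    · rw [← WithOne.coe_mul, ← WithOne.coe_mul, hy]
    · rw [← WithOne.coe_mul, ← WithOne.coe_mul, hy']

theorem solv_NI {S : Type u} [Semigroup S]
    (hs : ∀ (G : Type u) [Group G] (f : G →ₙ* S), Function.Injective f → ¬ Tame S (f 1) → Group.IsSolvable G)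
    (f : NI (VS S)) : Group.IsSolvable (Cor f.1)ˣ := by
  have hf1 : f.1.1 ≠ 1 := by
    intro h1
    apply f.2
    rw [h1]
    intro m hm x hx hx' hab
    obtain ⟨e, he, rfl⟩ := hm
    obtain ⟨x, rfl⟩ := D17a_coe hx
    obtain ⟨a, b, hab⟩ := hab
    exact absurd hab.symm (D17a_ne x a b)
  obtain ⟨e, he⟩ : ∃ e : S, f.1.1 = (e : WithOne S) := by
    obtain ⟨m, hm⟩ : ∃ m, m = f.1.1 := ⟨_, rfl⟩
    rw [← hm] at hf1 ⊢
    induction m using WithOne.recOneCoe with
    | one => exact absurd rfl hf1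
    | coe s => exact ⟨s, rfl⟩
  have hc : ∀ u : (Cor f.1)ˣ, ∃ s : S, u.1.1 = (s : WithOne S) := by
    intro u
    obtain ⟨m, hm⟩ : ∃ m : WithOne S, m = u.1.1 := ⟨_, rfl⟩
    have h1 : f.1.1 * m = m := by rw [hm]; exact u.1.2.1
    rw [he] at h1
    obtain ⟨s, hs'⟩ := D17a_coe h1
    exact ⟨s, hm.symm.trans hs'⟩
  choose φ hφ using hc
  let Φ : (Cor f.1)ˣ →ₙ* S :=
    { toFun := φ
      map_mul' := by
        intro u v
        apply WithOne.coe_inj.1
        rw [WithOne.coe_mul, ← hφ, ← hφ, ← hφ]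
        rfl }
  refine hs (Cor f.1)ˣ Φ ?_ ?_
  · intro u v huv
    apply Units.ext
    apply Subtype.ext
    rw [hφ u, hφ v]
    exact congrArg _ huv
  · intro ht
    apply f.2
    have h1 : ((Φ 1 : S) : WithOne S) = f.1.1 := (hφ 1).symm
    rw [← h1]
    exact (tameV_coe _).2 ht

end Pool.Agent.LibDS14
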