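import Pool.Agent.LibDS14.D0
import Pool.Agent.LibCR14.A1
import Pool.Agent.LibSMP.Window

/-! The net of blocks (copy of LibCR14.A2 for NetD). -/

set_option autoImplicit false

namespace Pool.Agent.LibDS14

open Pool.Agent.LibSMP

private theorem A2_fac {S : Type*} [Semigroup S] [Finite S] {n k : ℕ} (a : Fin k → Fin n → S)
    (b : Fin (Nat.card S + 1) → Fin k) (i : Fin n) :
    ∃ (x z : WithOne S) (e : S), e * e = e ∧ vw a i (List.ofFn b) = x * (e : WithOne S) * z := by
  unfold vw
  apply LibCR14.idem_factor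
  rw [List.length_map, List.length_ofFn]
  exact Nat.lt_succ_self _

theorem word_net {S : Type*} [Semigroup S] [Finite S]
    {n k : ℕ} (a : Fin k → Fin n → S) :
    ∃ (N : NetD (WithOne S) n (Fin (Nat.card S + 1) → Fin k)
        ((Fin (Nat.card S + 1) → Fin k) × (Fin (Nat.card S + 1) → Fin k)))
      (X Z : (Fin (Nat.card S + 1) → Fin k) → Fin n → WithOne S), (∀ q i, N.ep q i ∈ VS S) ∧
      N.src = Prod.fst ∧ N.tgt = Prod.snd ∧
      ∀ (b b' : Fin (Nat.card S + 1) → Fin k)
        (l : List ((Fin (Nat.card S + 1) → Fin k) × (Fin (Nat.card S + 1) → Fin k))) (i : Fin n), Pt N b l b' →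
        X b i * pv N b l i * Z b' i = vw a i (List.ofFn b ++ l.flatMap (fun p => List.ofFn p.2)) := by
  choose X Z e he hv using A2_fac a
  have hee : ∀ b i, (e b i : WithOne S) * (e b i : WithOne S) = (e b i : WithOne S) := by
    intro b i
    rw [← WithOne.coe_mul, he b i]
  let N : NetD (WithOne S) n (Fin (Nat.card S + 1) → Fin k)
      ((Fin (Nat.card S + 1) → Fin k) × (Fin (Nat.card S + 1) → Fin k)) :=
    { src := Prod.fst
      tgt := Prod.snd
      ep := fun b i => (e b i : WithOne S)
      vl := fun p i => (e p.1 i : WithOne S) * Z p.1 i * X p.2 i * (e p.2 i : WithOne S)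
      id := fun b i => hee b i
      hl := fun p i => by
        show (e p.1 i : WithOne S) * ((e p.1 i : WithOne S) * Z p.1 i * X p.2 i * (e p.2 i : WithOne S)) =
          (e p.1 i : WithOne S) * Z p.1 i * X p.2 i * (e p.2 i : WithOne S)
        rw [← mul_assoc, ← mul_assoc, ← mul_assoc, hee]
      hr := fun p i => by
        show (e p.1 i : WithOne S) * Z p.1 i * X p.2 i * (e p.2 i : WithOne S) * (e p.2 i : WithOne S) =
          (e p.1 i : WithOne S) * Z p.1 i * X p.2 i * (e p.2 i : WithOne S)
        rw [mul_assoc _ (e p.2 i : WithOne S) (e p.2 i : WithOne S), hee] }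
  refine ⟨N, X, Z, fun b i => ⟨e b i, he b i, rfl⟩, rfl, rfl, ?_⟩
  intro b b' l
  induction l generalizing b with
  | nil =>
    intro i hp
    have hb : b = b' := hp
    subst hb
    show X b i * (e b i : WithOne S) * Z b i = _
    rw [List.flatMap_nil, List.append_nil]
    exact (hv b i).symm
  | cons p l ih =>
    intro i hp
    obtain ⟨hp1, hp2⟩ := hp
    have hb : p.1 = b := hp1
    have hp3 : Pt N p.2 l b' := hp2
    have h1 := ih p.2 i hp3
    have h2 : (e p.2 i : WithOne S) * pv N p.2 l i = pv N p.2 l i := pv_left hp3 i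
    have h3 : pv N b (p :: l) i =
        (e p.1 i : WithOne S) * Z p.1 i * X p.2 i * (e p.2 i : WithOne S) * pv N p.2 l i := rfl
    rw [List.flatMap_cons, vw_append, ← h1, h3, hb, hv b i]
    simp only [mul_assoc]
    rw [← mul_assoc (e p.2 i : WithOne S) (pv N p.2 l i), h2]

end Pool.Agent.LibDS14
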