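import Pool.Agent.LibDS14.D17
import Pool.Agent.LibSMP.NPHard

/-! Locally completely regular semigroups are locally DS, and all their elements are tame. -/

set_option autoImplicit false

namespace Pool.Agent.LibDS14

open Pool.Agent.LibSMP

theorem tame_of_lcr {S : Type*} [Semigroup S] (h : LocallyCR S) (s : S) : Tame S s :=
  fun e x he h1 h2 _ => h e x he h1 h2

theorem lds_of_lcr {S : Type*} [Semigroup S] (h : LocallyCR S) : LocallyDS S := by
  intro e x y z a b c d he h1 h2 h3 h4 hz hxy hyx
  have hcr : LibCR14.CRat (e : WithOne S) := LibCR14.CRat_coe h he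
  have hf : ((x * z : S) : WithOne S) * ((x * z : S) : WithOne S) = ((x * z : S) : WithOne S) := by
    rw [← WithOne.coe_mul, ← mul_assoc, hz]
  have hfx : JLe ((x * z : S) : WithOne S) (x : WithOne S) :=
    ⟨1, (z : WithOne S), by rw [one_mul, ← WithOne.coe_mul]⟩
  have hxf : JLe (x : WithOne S) ((x * z : S) : WithOne S) :=
    ⟨1, (x : WithOne S), by rw [one_mul, ← WithOne.coe_mul, hz]⟩
  have hxy' : JLe (x : WithOne S) (y : WithOne S) :=
    ⟨(a : WithOne S), (b : WithOne S), by rw [← WithOne.coe_mul, ← WithOne.coe_mul, ← hxy]⟩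
  have h5 := LibCR14.ds_at hcr hf (A := (x : WithOne S)) (B := (y : WithOne S))
    (by rw [← WithOne.coe_mul, h2]) (by rw [← WithOne.coe_mul, h3]) hfx (hfx.trans hxy')
  obtain ⟨p, q, hpq⟩ := hxf.trans h5
  obtain ⟨p', hp'⟩ : ∃ p' : S, (e : WithOne S) * p = (p' : WithOne S) := by
    induction p using WithOne.recOneCoe with
    | one => exact ⟨e, by rw [mul_one]⟩
    | coe p => exact ⟨e * p, by rw [WithOne.coe_mul]⟩
  obtain ⟨q', hq'⟩ : ∃ q' : S, q * (e : WithOne S) = (q' : WithOne S) := by
    induction q using WithOne.recOneCoe with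
    | one => exact ⟨e, by rw [one_mul]⟩
    | coe q => exact ⟨q * e, by rw [WithOne.coe_mul]⟩
  refine ⟨p', q', WithOne.coe_injective ?_⟩
  rw [WithOne.coe_mul, WithOne.coe_mul, WithOne.coe_mul, ← hp', ← hq']
  calc (x : WithOne S) = (e : WithOne S) * (x : WithOne S) * (e : WithOne S) := by
        rw [← WithOne.coe_mul, ← WithOne.coe_mul, h1, h2]
    _ = (e : WithOne S) * (p * ((x : WithOne S) * (y : WithOne S)) * q) * (e : WithOne S) := by rw [← hpq]
    _ = _ := by simp only [mul_assoc]

end Pool.Agent.LibDS14
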