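import Pool.Agent.LibDS14.D1

/-!
[DS14 D2] (MEDIUM) Content lemma. Copy of `N2_ret` (LibCR14/N2.lean, 45 lines) with `N.cr _ i` replaced by `hd _ i` (`rem_at`, `ds_at` of LibDS14/D1.lean have the same shape); then `content` is: `N2_ret` for the loop `x` gives `JLe f (pv x * pv y)`, so `JLe f (pv x)`
(`JLe_of_mul_left`).
-/

set_option autoImplicit false

namespace Pool.Agent.LibDS14

open Pool.Agent.LibSMP

variable {M : Type*} [Monoid M] {n : ℕ} {Q E : Type*} {N : NetD M n Q E}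

private lemma D2_ret (hd : ∀ q i, DSat (N.ep q i)) {q : Q} {w : List E} (hw : Pt N q w q) (i : Fin n) {f : M}
    (hf : f * f = f) (hfW : JLe f (pv N q w i)) :
    ∀ (x : List E) (s : Q), Pt N q x s → (∀ a ∈ x, a ∈ w) →
      ∃ y, Pt N s y q ∧ JLe f (pv N q x i * pv N s y i) := by
  intro x
  induction x using List.reverseRecOn with
  | nil =>
    intro s hs _
    have hs' : q = s := hs
    subst hs'
    refine ⟨w, hw, ?_⟩
    rw [pv_nil, pv_left hw]
    exact hfW
  | append_singleton x₀ a ih =>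
    intro s hs hsub
    obtain ⟨s₁, h0, h1⟩ := pt_append.1 hs
    obtain ⟨hsrc, htgt⟩ := h1
    have htgt' : N.tgt a = s := htgt
    subst hsrc
    subst htgt'
    obtain ⟨y₀, hy₀, hJ⟩ := ih (N.src a) h0 (fun b hb => hsub b (by simp [hb]))
    have haw : a ∈ w := hsub a (by simp)
    obtain ⟨w₁, w₂, hweq, hw₁, hw₂⟩ := pt_split hw haw
    refine ⟨w₂, hw₂, ?_⟩
    have hA : (pv N q x₀ i * pv N (N.src a) y₀ i) * N.ep q i = pv N q x₀ i * pv N (N.src a) y₀ i := by
      rw [mul_assoc, pv_right hy₀]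
    have hB : N.ep q i * pv N q w i = pv N q w i := pv_left hw i
    have h2 := ds_at (hd q i) hf hA hB hJ hfW
    have hW : pv N q w i = pv N q w₁ i * (N.vl a i * pv N (N.tgt a) w₂ i) := by
      have h3 : pv N q (w₁ ++ a :: w₂) i = pv N q w₁ i * pv N (N.src a) (a :: w₂) i :=
        pv_append hw₁ (show Pt N (N.src a) (a :: w₂) q from ⟨rfl, hw₂⟩) i
      rw [hweq, h3, pv_cons]
    have h3 : JLe f (pv N q x₀ i * (pv N (N.src a) y₀ i * pv N q w₁ i) * (N.vl a i * pv N (N.tgt a) w₂ i)) := by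
      rw [hW] at h2
      simpa only [mul_assoc] using h2
    have h4 := rem_at (hd (N.src a) i) hf (pv_right h0 i)
      (by rw [← mul_assoc, N.hl]) h3
    rw [pv_snoc h0, mul_assoc]
    exact h4

theorem content (hd : ∀ q i, DSat (N.ep q i)) {q : Q} {w x : List E} (hw : Pt N q w q) (hx : Pt N q x q)
    (hs : ∀ a ∈ x, a ∈ w) (i : Fin n) {f : M} (hf : f * f = f) (hfW : JLe f (pv N q w i)) :
    JLe f (pv N q x i) := by
  obtain ⟨y, -, hy⟩ := D2_ret hd hw i hf hfW x q hx hs
  exact JLe_of_mul_left hy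

end Pool.Agent.LibDS14
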