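import Pool.Agent.LibDS14.D0

/-!
[DS14 D3b] (MEDIUM) Many visits give many long loops.
Helper A (skip to the first visit): if `0 < VC N v q w`, `Pt N q w q'` then `w = u ++ w'`, `Pt N q u v`, `Pt N v w' q'`, `VC N v v w' = VC N v q w` (induction on `w`: if `q = v` take `u = []`; else unfold `VC` and use the induction hypothesis for `N.tgt a`).
Helper B (one step further): if `1 < VC N v v w`, `Pt N v w q'` then `w = x ++ w'`, `x ≠ []`, `Pt N v x v`, `Pt N v w' q'`, `VC N v v w' + 1 = VC N v v w` (`w = a :: w₁`, `VC N v (N.tgt a) w₁ = VC N v v w - 1 > 0`, Helper A).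
Helper C: if `k < VC N v v w` then `w = x ++ w'`, `Pt N v x v`, `Pt N v w' q'`, `k ≤ x.length`, `VC N v v w' + k = VC N v v w` (induction on `k` with Helper B).
Then induction on `K` with Helper C for `k = p + 1`; the part `u` comes from Helper A at the beginning.
-/

set_option autoImplicit false

namespace Pool.Agent.LibDS14

variable {M : Type*} [Monoid M] {n : ℕ} {Q E : Type*} {N : NetD M n Q E}

private lemma D3b_first (v q' : Q) (w : List E) : ∀ q : Q, Pt N q w q' → 0 < VC N v q w →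
    ∃ u w' : List E, w = u ++ w' ∧ Pt N q u v ∧ Pt N v w' q' ∧ VC N v v w' = VC N v q w := by
  induction w with
  | nil =>
    intro q hw h
    have hq : q = v := by
      by_contra hne
      simp [VC, hne] at h
    subst hq
    exact ⟨[], [], rfl, rfl, hw, rfl⟩
  | cons a l ih =>
    intro q hw h
    by_cases hq : q = v
    · subst hq
      exact ⟨[], a :: l, rfl, rfl, hw, rfl⟩
    · have h1 : VC N v q (a :: l) = VC N v (N.tgt a) l := by simp [VC, hq]
      rw [h1] at h
      obtain ⟨u, w', e, hu, hw', hc⟩ := ih (N.tgt a) hw.2 h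
      refine ⟨a :: u, w', ?_, ⟨hw.1, hu⟩, hw', ?_⟩
      · rw [e]; rfl
      · rw [hc, h1]

private lemma D3b_step (v q' : Q) (w : List E) (hw : Pt N v w q') (h : 1 < VC N v v w) :
    ∃ x w' : List E, w = x ++ w' ∧ x ≠ [] ∧ Pt N v x v ∧ Pt N v w' q' ∧ VC N v v w' + 1 = VC N v v w := by
  cases w with
  | nil => simp [VC] at h
  | cons a l =>
    have h1 : VC N v v (a :: l) = 1 + VC N v (N.tgt a) l := by simp [VC]
    rw [h1] at h
    obtain ⟨u, w', e, hu, hw', hc⟩ := D3b_first v q' l (N.tgt a) hw.2 (by omega)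
    refine ⟨a :: u, w', ?_, List.cons_ne_nil _ _, ⟨hw.1, hu⟩, hw', ?_⟩
    · rw [e]; rfl
    · rw [hc, h1]; omega

private lemma D3b_many (v q' : Q) (w : List E) (hw : Pt N v w q') : ∀ k : ℕ, k < VC N v v w →
    ∃ x w' : List E, w = x ++ w' ∧ Pt N v x v ∧ Pt N v w' q' ∧ k ≤ x.length ∧
      VC N v v w' + k = VC N v v w := by
  intro k
  induction k with
  | zero => exact fun _ => ⟨[], w, rfl, rfl, hw, le_refl _, rfl⟩
  | succ k ih =>
    intro h
    obtain ⟨x, w', e, hx, hw', hl, hc⟩ := ih (by omega)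
    obtain ⟨y, w'', e', hy0, hy, hw'', hc'⟩ := D3b_step v q' w' hw' (by omega)
    refine ⟨x ++ y, w'', ?_, pt_append.2 ⟨v, hx, hy⟩, hw'', ?_, ?_⟩
    · rw [e, e', List.append_assoc]
    · have := List.length_pos_of_ne_nil hy0
      rw [List.length_append]; omega
    · omega

private lemma D3b_row (p : ℕ) (v q' : Q) : ∀ (K : ℕ) (w : List E), Pt N v w q' → K * (p + 1) < VC N v v w →
    ∃ (xs : List (List E)) (z : List E), w = xs.flatten ++ z ∧ Pt N v z q' ∧
      xs.length = K ∧ ∀ x ∈ xs, Pt N v x v ∧ p < x.length := by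
  intro K
  induction K with
  | zero =>
    intro w hw _
    exact ⟨[], w, rfl, hw, rfl, by simp⟩
  | succ K ih =>
    intro w hw h
    rw [Nat.succ_mul] at h
    obtain ⟨x, w', e, hx, hw', hl, hc⟩ := D3b_many v q' w hw (p + 1) (by omega)
    obtain ⟨xs, z, e', hz, hlen, hall⟩ := ih w' hw' (by omega)
    refine ⟨x :: xs, z, ?_, hz, ?_, ?_⟩
    · rw [e, e', List.flatten_cons, List.append_assoc]
    · rw [List.length_cons, hlen]
    · intro y hy
      rcases List.mem_cons.1 hy with rfl | hy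
      · exact ⟨hx, by omega⟩
      · exact hall y hy

theorem loops_of_visits (p K : ℕ) (v q q' : Q) (w : List E) (hw : Pt N q w q') (h : K * (p + 1) < VC N v q w) :
    ∃ (u : List E) (xs : List (List E)) (z : List E), w = u ++ xs.flatten ++ z ∧ Pt N q u v ∧ Pt N v z q' ∧
      xs.length = K ∧ ∀ x ∈ xs, Pt N v x v ∧ p < x.length := by
  obtain ⟨u, w', e, hu, hw', hc⟩ := D3b_first v q' w q hw (by omega)
  obtain ⟨xs, z, e', hz, hlen, hall⟩ := D3b_row p v q' K w' hw' (by omega)
  refine ⟨u, xs, z, ?_, hu, hz, hlen, hall⟩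
  rw [e, e', List.append_assoc]

end Pool.Agent.LibDS14
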