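import Pool.Agent.LibDS14.D3a
import Pool.Agent.LibDS14.D3b

set_option autoImplicit false

namespace Pool.Agent.LibDS14

variable {M : Type*} [Monoid M] {n : ℕ} {Q E : Type*} {N : NetD M n Q E}

theorem cut [Fintype Q] {q : Q} {w : List E} (hw : Pt N q w q) (K p : ℕ)
    (h : Fintype.card Q * (K * (p + 1)) ≤ w.length) :
    ∃ (v : Q) (u : List E) (xs : List (List E)) (z : List E), w = u ++ xs.flatten ++ z ∧ Pt N q u v ∧
      Pt N v z q ∧ xs.length = K ∧ ∀ x ∈ xs, Pt N v x v ∧ p < x.length := by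
  obtain ⟨v, hv⟩ := exists_visits (N := N) q w _ h
  obtain ⟨u, xs, z, h1⟩ := loops_of_visits p K v q q w hw hv
  exact ⟨v, u, xs, z, h1⟩

end Pool.Agent.LibDS14
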