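import Pool.Agent.LibDS14.D0

/-!
[DS14 D3a] (SHORT) Pigeonhole. `∑ v, VC N v q w = w.length + 1` by induction on `w` generalizing `q` (`Finset.sum_ite_eq`, `Finset.sum_add_distrib`, unfold `VC`). If `VC N v q w ≤ c` for all `v` then the sum is `≤ card Q * c` (`Finset.sum_le_card_nsmul`).
-/

set_option autoImplicit false

namespace Pool.Agent.LibDS14

variable {M : Type*} [Monoid M] {n : ℕ} {Q E : Type*} {N : NetD M n Q E}

open Classical in
private theorem D3a_sum [Fintype Q] (w : List E) : ∀ q : Q, ∑ v, VC N v q w = w.length + 1 := by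
  induction w with
  | nil =>
    intro q
    simp [VC]
  | cons a l ih =>
    intro q
    simp only [VC]
    rw [Finset.sum_add_distrib, ih]
    simp [add_comm]

theorem exists_visits [Fintype Q] (q : Q) (w : List E) (c : ℕ) (h : Fintype.card Q * c ≤ w.length) :
    ∃ v, c < VC N v q w := by
  by_contra hcon
  push Not at hcon
  have h1 : ∑ v, VC N v q w ≤ Fintype.card Q * c := by
    have := Finset.sum_le_card_nsmul (Finset.univ : Finset Q) (fun v => VC N v q w) c (fun v _ => hcon v)
    rwa [smul_eq_mul, Finset.card_univ] at this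
  rw [D3a_sum] at h1
  omega

end Pool.Agent.LibDS14
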