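import Pool.Agent.LibDS14.D2
import Pool.Agent.LibDS14.D3

/-!
[DS14 D4] (MEDIUM/LONG) One step for loops in nets (net version of `single_step`, LibSMP/Steps.lean; the structure of the proof is the same). `C` from `hr`; the new exponent is `C + 3`. Strong induction on `w.length`, `s := n + card Q + 2`, `p := s ^ C`.
If `w.length ≤ s ^ (C + 3)`: `w` itself (`hrefl`). Otherwise `cut` with `K = n + 1` (`card Q * ((n+1) * (p+1)) ≤ s * (s * (2 * p)) ≤ s ^ (C+3)`): `w = u ++ xs.flatten ++ z`, loops at `v`. For `j < n + 1` write `xs = xs.take j ++ xs[j] :: xs.drop (j+1)`, so with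
`u_j = u ++ (xs.take j).flatten : q → v`, `x_j = xs[j] : v → v`, `z_j = (xs.drop (j+1)).flatten ++ z : v → q`: `w = u_j ++ x_j ++ z_j`, `pv N q w i = U_j * X_j * W_j` (`pv_three`, `pt_flatten` in D0.lean). `x_j'` from `hr` for the loop `x_j` (length `≤ p < x_j.length`).
If for some `j` no coordinate `i` has `Bad (U_j i) (X_j i) (W_j i)`: `w₁ = u_j ++ x_j' ++ z_j` is a shorter loop at `q` with edges in `w`; `h1` at `N.ep v i ∈ V` (`pv_left`, `pv_right`; the hypothesis on idempotents `f` is `content` with `hd q i := hV _ (hVN q i)`) gives `r' (pv w₁ i) (pv w i)`;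
induction hypothesis for `w₁` and `htrans`. Otherwise two of the `n + 1` indices `j < j'` have the same bad coordinate `i`: `W_j = A * X_j' * W_j'` and `U_j' = U_j * X_j * A` where `A` is the value of `(xs.drop (j+1)).take (j' - j - 1)` flattened (a loop at `v`); `h2`.
-/

set_option autoImplicit false

namespace Pool.Agent.LibDS14

open Pool.Agent.LibSMP

variable {M : Type*} [Monoid M]

private theorem D4_split {E : Type*} (xs : List (List E)) {j : ℕ} (hj : j < xs.length) :
    xs.flatten = (xs.take j).flatten ++ xs[j] ++ (xs.drop (j + 1)).flatten := by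
  conv_lhs => rw [← List.take_append_drop j xs, ← List.getElem_cons_drop hj]
  rw [List.flatten_append, List.flatten_cons, List.append_assoc]

private theorem D4_take {E : Type*} (xs : List (List E)) {a b : ℕ} (hab : a + 1 ≤ b) (ha : a < xs.length) :
    (xs.take b).flatten = (xs.take a).flatten ++ xs[a] ++
      ((xs.drop (a + 1)).take (b - (a + 1))).flatten := by
  have e1 : xs.take b = xs.take (a + 1) ++ (xs.drop (a + 1)).take (b - (a + 1)) := by
    conv_lhs => rw [show b = (a + 1) + (b - (a + 1)) by omega]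
    rw [List.take_add]
  rw [e1, List.flatten_append, List.take_succ_eq_append_getElem ha, List.flatten_append]
  simp

private theorem D4_drop {E : Type*} (xs : List (List E)) {a b : ℕ} (hab : a + 1 ≤ b) (hb : b < xs.length) :
    (xs.drop (a + 1)).flatten = ((xs.drop (a + 1)).take (b - (a + 1))).flatten ++ xs[b] ++
      (xs.drop (b + 1)).flatten := by
  have e1 : (xs.drop (a + 1)).drop (b - (a + 1)) = xs[b] :: xs.drop (b + 1) := by
    rw [List.drop_drop, show a + 1 + (b - (a + 1)) = b by omega, List.getElem_cons_drop hb]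
  conv_lhs => rw [← List.take_append_drop (b - (a + 1)) (xs.drop (a + 1)), e1]
  rw [List.flatten_append, List.flatten_cons, List.append_assoc]

private theorem D4_bound (n c C : ℕ) :
    c * ((n + 1) * ((n + c + 2) ^ C + 1)) ≤ (n + c + 2) ^ (C + 3) := by
  have h1 : 1 ≤ (n + c + 2) ^ C := Nat.one_le_pow _ _ (by omega)
  have h2 : (n + c + 2) ^ C + 1 ≤ (n + c + 2) * (n + c + 2) ^ C := by
    calc (n + c + 2) ^ C + 1 ≤ 2 * (n + c + 2) ^ C := by omega
      _ ≤ (n + c + 2) * (n + c + 2) ^ C := Nat.mul_le_mul_right _ (by omega)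
  calc c * ((n + 1) * ((n + c + 2) ^ C + 1))
      ≤ (n + c + 2) * ((n + c + 2) * ((n + c + 2) * (n + c + 2) ^ C)) :=
        Nat.mul_le_mul (by omega) (Nat.mul_le_mul (by omega) h2)
    _ = (n + c + 2) ^ (C + 3) := by ring

theorem net_step {V : Set M} (hV : ∀ e ∈ V, DSat e) (r r' : M → M → Prop) (hr : LPr V r)
    (hrefl : ∀ x, r' x x) (htrans : ∀ x y z, r' x y → r' y z → r' x z)
    (Bad : M → M → M → Prop)
    (h1 : ∀ d ∈ V, ∀ U X X' W : M, U * d = U → d * X = X → X * d = X → d * X' = X' → X' * d = X' → d * W = W →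
      (∀ f : M, f * f = f → JLe f X → JLe f X') → r X' X → ¬ Bad U X W → r' (U * X' * W) (U * X * W))
    (h2 : ∀ U X A Y W : M, Bad U X (A * Y * W) → Bad (U * X * A) Y W → False) : LPr V r' := by
  obtain ⟨C, hC⟩ := hr
  refine ⟨C + 3, ?_⟩
  intro n Q E _ N hVN q w
  induction hN : w.length using Nat.strong_induction_on generalizing w with
  | _ L ih =>
  intro hw
  by_cases hlen : w.length ≤ (n + Fintype.card Q + 2) ^ (C + 3)
  · exact ⟨w, hw, fun a ha => ha, hlen, fun i => hrefl _⟩
  push Not at hlen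
  obtain ⟨p, hp⟩ : ∃ p, p = (n + Fintype.card Q + 2) ^ C := ⟨_, rfl⟩
  have hcut : Fintype.card Q * ((n + 1) * (p + 1)) ≤ w.length := by
    rw [hp]
    exact (D4_bound n (Fintype.card Q) C).trans hlen.le
  obtain ⟨v, u, xs, z, hwe, hu, hz, hxl, hx⟩ := cut hw (n + 1) p hcut
  have hU : ∀ j : ℕ, Pt N q (u ++ (xs.take j).flatten) v := fun j =>
    pt_append.2 ⟨v, hu, pt_flatten fun x hx' => (hx x (List.mem_of_mem_take hx')).1⟩
  have hZ : ∀ j : ℕ, Pt N v ((xs.drop j).flatten ++ z) q := fun j =>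
    pt_append.2 ⟨v, pt_flatten fun x hx' => (hx x (List.mem_of_mem_drop hx')).1, hz⟩
  have hjl : ∀ j : Fin (n + 1), (j : ℕ) < xs.length := fun j => by
    rw [hxl]
    exact j.2
  have hX : ∀ j : Fin (n + 1), Pt N v (xs[(j : ℕ)]'(hjl j)) v := fun j =>
    (hx _ (List.getElem_mem _)).1
  have hwj : ∀ j : Fin (n + 1), w = (u ++ (xs.take j).flatten) ++ xs[(j : ℕ)]'(hjl j) ++
      ((xs.drop ((j : ℕ) + 1)).flatten ++ z) := by
    intro j
    rw [hwe, D4_split xs (hjl j)]
    simp only [List.append_assoc]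
  choose x' hx'1 hx'2 hx'3 hx'4 using fun j : Fin (n + 1) => hC n Q E N hVN v _ (hX j)
  have hgood : ∃ j : Fin (n + 1), ∀ i : Fin n, ¬ Bad (pv N q (u ++ (xs.take j).flatten) i)
      (pv N v (xs[(j : ℕ)]'(hjl j)) i) (pv N v ((xs.drop ((j : ℕ) + 1)).flatten ++ z) i) := by
    by_contra hcon
    push Not at hcon
    choose g hg using hcon
    obtain ⟨a, b, hab, hgab⟩ := Fintype.exists_ne_map_eq_of_card_lt g (by simp)
    wlog hlt : a < b generalizing a b
    · exact this b a hab.symm hgab.symm (lt_of_le_of_ne (not_lt.1 hlt) hab.symm)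
    have hlt' : (a : ℕ) + 1 ≤ (b : ℕ) := hlt
    have hm : Pt N v ((xs.drop ((a : ℕ) + 1)).take ((b : ℕ) - ((a : ℕ) + 1))).flatten v :=
      pt_flatten fun x hx' => (hx x (List.mem_of_mem_drop (List.mem_of_mem_take hx'))).1
    have eU : u ++ (xs.take b).flatten = (u ++ (xs.take a).flatten) ++ xs[(a : ℕ)]'(hjl a) ++
        ((xs.drop ((a : ℕ) + 1)).take ((b : ℕ) - ((a : ℕ) + 1))).flatten := by
      rw [D4_take xs hlt' (hjl a)]
      simp only [List.append_assoc]
    have eZ : (xs.drop ((a : ℕ) + 1)).flatten ++ z =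
        ((xs.drop ((a : ℕ) + 1)).take ((b : ℕ) - ((a : ℕ) + 1))).flatten ++ xs[(b : ℕ)]'(hjl b) ++
          ((xs.drop ((b : ℕ) + 1)).flatten ++ z) := by
      rw [D4_drop xs hlt' (hjl b)]
      simp only [List.append_assoc]
    have ha := hg a
    have hb := hg b
    rw [eZ, pv_three hm (hX b) (hZ _)] at ha
    rw [← hgab, eU, pv_three (hU _) (hX a) hm] at hb
    exact h2 _ _ _ _ _ ha hb
  obtain ⟨j, hgj⟩ := hgood
  have hpt : Pt N q ((u ++ (xs.take j).flatten) ++ x' j ++ ((xs.drop ((j : ℕ) + 1)).flatten ++ z)) q :=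
    pt_three (hU _) (hx'1 j) (hZ _)
  have hsub : ∀ a ∈ (u ++ (xs.take j).flatten) ++ x' j ++ ((xs.drop ((j : ℕ) + 1)).flatten ++ z),
      a ∈ w := by
    intro a ha
    rw [hwj j]
    rcases List.mem_append.1 ha with ha | ha
    · rcases List.mem_append.1 ha with ha | ha
      · exact List.mem_append.2 (Or.inl (List.mem_append.2 (Or.inl ha)))
      · exact List.mem_append.2 (Or.inl (List.mem_append.2 (Or.inr (hx'2 j a ha))))
    · exact List.mem_append.2 (Or.inr ha)
  have hlt : ((u ++ (xs.take j).flatten) ++ x' j ++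
      ((xs.drop ((j : ℕ) + 1)).flatten ++ z)).length < L := by
    rw [← hN]
    conv_rhs => rw [hwj j]
    rw [List.length_append, List.length_append, List.length_append (as := _ ++ _),
      List.length_append (as := u ++ _)]
    have h3 := (hx _ (List.getElem_mem (hjl j))).2
    have h4 := hx'3 j
    omega
  obtain ⟨w', hw'1, hw'2, hw'3, hw'4⟩ := ih _ hlt _ rfl hpt
  refine ⟨w', hw'1, fun a ha => hsub a (hw'2 a ha), hw'3, fun i => htrans _ _ _ (hw'4 i) ?_⟩
  rw [pv_three (hU _) (hx'1 j) (hZ _)]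
  conv_rhs => rw [hwj j]
  rw [pv_three (hU _) (hX j) (hZ _)]
  exact h1 (N.ep v i) (hVN v i) _ _ _ _ (pv_right (hU _) i) (pv_left (hX j) i) (pv_right (hX j) i)
    (pv_left (hx'1 j) i) (pv_right (hx'1 j) i) (pv_left (hZ _) i)
    (fun f hf hfX => content (fun q i => hV _ (hVN q i)) (hX j) (hx'1 j) (hx'2 j) i hf hfX)
    (hx'4 j i) (hgj i)

end Pool.Agent.LibDS14
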