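import Pool.Agent.LibDS14.D4
import Pool.Agent.LibDS14.D5

/-!
[DS14 D6] (MEDIUM) Step E. Copy of `step_E` (LibSMP/JClass.lean) with `net_step` instead of `single_step`, `Bad U X W := JLe e U ∧ JLe e W ∧ ¬ JLe e X`. `DS_mul hDS he` becomes `ds_at hd he _ _` at the vertex idempotent `d ∈ V` (`hd := hV d hdV`). The line `hx' : JLe e x'.prod` is now the hypothesis of `net_step`
on idempotents applied to `e` (`he : e * e = e`).
-/

set_option autoImplicit false

namespace Pool.Agent.LibDS14

open Pool.Agent.LibSMP

variable {M : Type*} [Monoid M]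

theorem step_E' {V : Set M} (hV : ∀ e ∈ V, DSat e) {I' : Set M} {e : M} (he : e * e = e) (hI' : IsId I')
    (he' : e ∉ I') (hmin : ∀ y, y ∉ I' → JLe y e → JLe e y) (h : LPr V (relI (I' ∪ {x | InJ e x}))) :
    LPr V (th1 I' e) := by
  have hI := extend_ideal hI' hmin
  apply net_step hV _ (th1 I' e) h (fun x => Or.inl rfl) (fun x y z => th1.trans hI' he')
    (fun U X W => JLe e U ∧ JLe e W ∧ ¬ JLe e X)
  · intro d hdV U X X' W hU hX1 hX2 hX1' hX2' hW hsub hr hbad
    have hd := hV d hdV
    have prod3 : ∀ Y : M, d * Y = Y → Y * d = Y → JLe e U → JLe e Y → JLe e W →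
        JLe e (U * Y * W) := by
      intro Y hY1 hY2 g1 g2 g3
      have g4 : JLe e (U * Y) := ds_at hd he hU hY1 g1 g2
      have g5 : (U * Y) * d = U * Y := by rw [mul_assoc, hY2]
      exact ds_at hd he g5 hW g4 g3
    rcases hr with hr | ⟨hr1, hr2⟩
    · rw [hr]; exact Or.inl rfl
    right
    have ht := hI _ hr2 U W
    have ht' := hI _ hr1 U W
    by_cases hF : JLe e (U * X * W)
    · left
      have hv := JLe_of_mul_right hF
      have hu := JLe_of_mul_left (JLe_of_mul_left hF)
      have hx := JLe_of_mul_right (JLe_of_mul_left hF)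
      have hx' : JLe e X' := hsub e he hx
      have hF' : JLe e (U * X' * W) := prod3 X' hX1' hX2' hu hx' hv
      constructor
      · rcases mem_I_cases hI' he' ht' with h | h
        · exact h.2
        · exact absurd hF' h.1
      · rcases mem_I_cases hI' he' ht with h | h
        · exact h.2
        · exact absurd hF h.1
    · right
      have hF' : ¬ JLe e (U * X' * W) := by
        intro hF'
        have hv := JLe_of_mul_right hF'
        have hu := JLe_of_mul_left (JLe_of_mul_left hF')
        apply hbad
        exact ⟨hu, hv, fun hx => hF (prod3 X hX1 hX2 hu hx hv)⟩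
      constructor
      · rcases mem_I_cases hI' he' ht' with h | h
        · exact absurd h.1 hF'
        · exact h.2
      · rcases mem_I_cases hI' he' ht with h | h
        · exact absurd h.1 hF
        · exact h.2
  · intro U X A Y W hb1 hb2
    apply hb1.2.2
    exact JLe_of_mul_right (JLe_of_mul_left hb2.1)

end Pool.Agent.LibDS14
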