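import Pool.Agent.LibSMP.GroupStep

/-!
# LibDS14, definitions

Nets over a finite monoid `M` whose vertices carry idempotents, all in a set `V` of idempotents with local monoids in DS.
-/

set_option autoImplicit false

namespace Pool.Agent.LibDS14

open Pool.Agent.LibSMP

/-- `e` is idempotent and in the local monoid `eMe` every regular J-class is a subsemigroup -/
def DSat {M : Type*} [Monoid M] (e : M) : Prop :=
  e * e = e ∧ ∀ x y : M, e * x = x → x * e = x → e * y = y → y * e = y → (∃ z, x * z * x = x) →
    JLe x y → JLe y x → JLe x (x * y)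

/-- a net: vertices in `Q` carry `n` idempotents of `M`, edges in `E` carry `n` elements of `M` that fit to the idempotents at their ends -/
structure NetD (M : Type*) [Monoid M] (n : ℕ) (Q E : Type*) where
  src : E → Q
  tgt : E → Q
  ep : Q → Fin n → M
  vl : E → Fin n → M
  id : ∀ q i, ep q i * ep q i = ep q i
  hl : ∀ a i, ep (src a) i * vl a i = vl a i
  hr : ∀ a i, vl a i * ep (tgt a) i = vl a i

section
variable {M : Type*} [Monoid M] {n : ℕ} {Q E : Type*}

/-- `l` is a path from `q` to `q'` -/
def Pt (N : NetD M n Q E) : Q → List E → Q → Prop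
  | q, [], q' => q = q'
  | q, a :: l, q' => N.src a = q ∧ Pt N (N.tgt a) l q'

/-- the value of a path starting at `q` -/
def pv (N : NetD M n Q E) : Q → List E → Fin n → M
  | q, [], i => N.ep q i
  | _, a :: l, i => N.vl a i * pv N (N.tgt a) l i

open Classical in
/-- number of visits of `v` on the path `l` starting at `q` (the starting vertex counts) -/
noncomputable def VC (N : NetD M n Q E) (v : Q) : Q → List E → ℕ
  | q, [] => if q = v then 1 else 0
  | q, a :: l => (if q = v then 1 else 0) + VC N v (N.tgt a) l

/-- everything J-above `f` in the local monoids at elements of `V` is completely regular -/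
def TameV (V : Set M) (f : M) : Prop :=
  ∀ e ∈ V, ∀ x : M, e * x = x → x * e = x → JLe f x → ∃ y : M, x * y * x = x ∧ x * y = y * x

/-- the ideal of the elements that are not tame -/
def I0 (V : Set M) : Set M := {f | ¬ TameV V f}

/-- idempotents that are not tame -/
abbrev NI (V : Set M) : Type _ := {f : {e : M // e * e = e} // ¬ TameV V f.1}

/-- product of the maximal subgroups at the idempotents that are not tame -/
abbrev GN (V : Set M) : Type _ := ∀ f : NI V, (Cor f.1)ˣ

/-- value of a group element at an idempotent -/
def gval {V : Set M} {n : ℕ} (e0 : Fin n → NI V) (g : Fin n → GN V) (i : Fin n) : M :=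
  ((g i (e0 i)).1.1 : M)

/-- `th3 I' e` and loops: blocks are pairs (loop, replacement) -/
abbrev Blk (E : Type*) := List E × List E

/-- the loops of the blocks, in a row -/
def orig {V : Set M} {n : ℕ} {E : Type*} (bs : List (Blk E × (Fin n → GN V))) : List E :=
  (bs.map (fun c => c.1.1)).flatten

/-- at the good coordinates replacing a block multiplies the value by its group element -/
def Valid {V : Set M} (N : NetD M n Q E) (v : Q) (good : Fin n → Prop) (e0 : Fin n → NI V) (rem : Fin n → M) :
    List (Blk E × (Fin n → GN V)) → Prop
  | [] => True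
  | c :: bs => (∀ i, good i → ∀ y : M,
      y * (pv N v c.1.1 i * (pv N v (orig bs) i * rem i)) * (e0 i).1.1
        = y * (pv N v c.1.1 i * (pv N v (orig bs) i * rem i)) →
      y * (pv N v c.1.2 i * (pv N v (orig bs) i * rem i))
        = y * (pv N v c.1.1 i * (pv N v (orig bs) i * rem i)) * gval e0 c.2 i) ∧
      Valid N v good e0 rem bs

end

/-- every loop in a net with vertex idempotents in `V` has a short replacement with `r`-related values -/
def LPr {M : Type*} [Monoid M] (V : Set M) (r : M → M → Prop) : Prop :=
  ∃ C : ℕ, ∀ (n : ℕ) (Q E : Type) [Fintype Q] (N : NetD M n Q E), (∀ q i, N.ep q i ∈ V) →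
    ∀ (q : Q) (w : List E), Pt N q w q →
      ∃ w' : List E, Pt N q w' q ∧ (∀ a ∈ w', a ∈ w) ∧ w'.length ≤ (n + Fintype.card Q + 2) ^ C ∧
        ∀ i, r (pv N q w' i) (pv N q w i)

/-- an element `s` of a semigroup is tame if every `x` in a local monoid `eSe` with `s` in the ideal `S¹xS¹` is completely regular -/
def Tame (S : Type*) [Semigroup S] (s : S) : Prop :=
  ∀ e x : S, e * e = e → e * x = x → x * e = x → (∃ a b : WithOne S, (s : WithOne S) = a * (x : WithOne S) * b) →
    ∃ y : S, x * y * x = x ∧ x * y = y * x

/-- the idempotents of `S` in `S` with an adjoined unit -/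
def VS (S : Type*) [Semigroup S] : Set (WithOne S) := {m | ∃ e : S, e * e = e ∧ m = (e : WithOne S)}

end Pool.Agent.LibDS14
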